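import Pool.Agent.U610.PC.Stm

/-!
# Project PC, package CLO (helper129): isotropy is stable under small changes of the parameter
-/

set_option autoImplicit false
set_option linter.all false

namespace Pool.Agent.U129.PC

open Polynomial Pool.Agent.U610.PC Filter Topology

/-- the elements near `1` are non-zero squares -/
def NearSq (F : Type) [NormedField F] : Prop :=
  ∃ δ : ℝ, 0 < δ ∧ ∀ u : F, ‖u - 1‖ < δ → u ≠ 0 ∧ IsSquare u

theorem near_real : NearSq ℝ := by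
  refine ⟨1 / 2, by norm_num, fun u hu => ?_⟩
  rw [Real.norm_eq_abs, abs_lt] at hu
  have h0 : 0 < u := by linarith [hu.1]
  exact ⟨h0.ne', ⟨√u, (Real.mul_self_sqrt h0.le).symm⟩⟩

theorem near_padic (p : ℕ) [Fact p.Prime] : NearSq ℚ_[p] := by
  have h2 : (2 : ℚ_[p]) ≠ 0 := two_ne_zero
  have h2n : 0 < ‖(2 : ℚ_[p])‖ := norm_pos_iff.2 h2
  have h21 : ‖(2 : ℚ_[p])‖ ≤ 1 := by
    have := Padic.norm_int_le_one (p := p) 2
    simpa using this
  have h22 : ‖(2 : ℚ_[p])‖ ^ 2 ≤ 1 := pow_le_one₀ h2n.le h21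
  refine ⟨‖(2 : ℚ_[p])‖ ^ 2, by positivity, fun u hu => ?_⟩
  have hu1 : ‖u - 1‖ < 1 := hu.trans_le h22
  have hu0 : u ≠ 0 := by
    rintro rfl
    rw [zero_sub, norm_neg, norm_one] at hu1
    exact lt_irrefl _ hu1
  refine ⟨hu0, ?_⟩
  have hun : ‖u‖ ≤ 1 := by
    have h := Padic.nonarchimedean (u - 1) 1
    rw [sub_add_cancel, norm_one] at h
    exact h.trans (max_le hu1.le le_rfl)
  obtain ⟨v, hv⟩ : ∃ v : ℤ_[p], (v : ℚ_[p]) = u := ⟨⟨u, hun⟩, rfl⟩
  have hF : ‖(aeval (1 : ℤ_[p]) (X ^ 2 - C v : ℤ_[p][X]) : ℤ_[p])‖ <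
      ‖(aeval (1 : ℤ_[p]) (derivative (X ^ 2 - C v : ℤ_[p][X])) : ℤ_[p])‖ ^ 2 := by
    have e1 : (aeval (1 : ℤ_[p]) (X ^ 2 - C v : ℤ_[p][X]) : ℤ_[p]) = 1 - v := by simp
    have e2 : (aeval (1 : ℤ_[p]) (derivative (X ^ 2 - C v : ℤ_[p][X])) : ℤ_[p]) = 2 := by
      simp [derivative_X_pow, one_add_one_eq_two]
    rw [e1, e2, PadicInt.norm_def, PadicInt.norm_def]
    push_cast
    rw [hv, norm_sub_rev]
    exact hu
  obtain ⟨z, hz, -⟩ := hensels_lemma hF
  have hz' : z ^ 2 = v := by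
    have : (aeval z (X ^ 2 - C v : ℤ_[p][X]) : ℤ_[p]) = z ^ 2 - v := by simp
    rw [this] at hz
    exact sub_eq_zero.1 hz
  refine ⟨(z : ℚ_[p]), ?_⟩
  rw [← hv, ← hz']
  push_cast
  ring

theorem gen {F : Type} [NormedField F] (hV : NearSq F) {n : ℕ} (D : Fin n → ℤ[X]) (x₀ : F)
    (h : ∀ i, aeval x₀ (D i) ≠ 0) (hiso : Iso fun i => (aeval x₀ (D i) : F)) :
    ∃ δ : ℝ, 0 < δ ∧ ∀ x : F, ‖x - x₀‖ < δ →
      (∀ i, aeval x (D i) ≠ 0) ∧ Iso fun i => (aeval x (D i) : F) := by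
  obtain ⟨δ, hδ, hsq⟩ := hV
  have hev : ∀ᶠ x in 𝓝 x₀, ∀ i, ‖(aeval x (D i) : F) / aeval x₀ (D i) - 1‖ < δ := by
    rw [eventually_all]
    intro i
    have hc : Continuous fun x : F => ‖(aeval x (D i) : F) / aeval x₀ (D i) - 1‖ := by
      have h1 : Continuous fun x : F => (aeval x (D i) : F) := (D i).continuous_aeval
      exact ((h1.div_const _).sub continuous_const).norm
    have h0 : ‖(aeval x₀ (D i) : F) / aeval x₀ (D i) - 1‖ < δ := by
      rw [div_self (h i), sub_self, norm_zero]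
      exact hδ
    exact hc.continuousAt.eventually (Iio_mem_nhds h0)
  obtain ⟨η, hη, hη'⟩ := Metric.eventually_nhds_iff.1 hev
  refine ⟨η, hη, fun x hx => ?_⟩
  have hx' := hη' (y := x) (by rw [dist_eq_norm]; exact hx)
  have hne : ∀ i, (aeval x (D i) : F) ≠ 0 := by
    intro i h0
    have := (hsq _ (hx' i)).1
    rw [h0, zero_div] at this
    exact this rfl
  refine ⟨hne, ?_⟩
  obtain ⟨y, hy0, hy⟩ := hiso
  choose s hs using fun i => (hsq _ (hx' i)).2
  have hs0 : ∀ i, s i ≠ 0 := by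
    intro i h0
    have := (hsq _ (hx' i)).1
    rw [hs i, h0, mul_zero] at this
    exact this rfl
  refine ⟨fun i => y i / s i, ?_, ?_⟩
  · intro h0
    apply hy0
    funext i
    have := congrFun h0 i
    simp only [Pi.zero_apply, div_eq_zero_iff] at this
    rcases this with h1 | h1
    · exact h1
    · exact absurd h1 (hs0 i)
  · rw [← hy]
    refine Finset.sum_congr rfl fun i _ => ?_
    have h1 : (aeval x (D i) : F) = aeval x₀ (D i) * (s i * s i) := by
      rw [← hs i, mul_div_cancel₀ _ (h i)]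
    show (aeval x (D i) : F) * (y i / s i) ^ 2 = aeval x₀ (D i) * y i ^ 2
    rw [h1]
    have := hs0 i
    field_simp

theorem aeval_cast {F : Type} [Field F] [CharZero F] (b : ℚ) (P : ℤ[X]) :
    (aeval (b : F) P : F) = ((aeval b P : ℚ) : F) := by
  have h := Polynomial.hom_eval₂ P (algebraMap ℤ ℚ) (Rat.castHom F) b
  rw [aeval_def, aeval_def]
  have h2 : (Rat.castHom F).comp (algebraMap ℤ ℚ) = algebraMap ℤ F := RingHom.ext_int _ _
  rw [h2] at h
  exact h.symm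

theorem iso_cast {F : Type} [Field F] [CharZero F] {n : ℕ} {d : Fin n → ℚ} (h : Iso d) :
    Iso fun i => ((d i : ℚ) : F) := by
  obtain ⟨y, hy0, hy⟩ := h
  refine ⟨fun i => (y i : F), ?_, ?_⟩
  · intro h0
    apply hy0
    funext i
    have := congrFun h0 i
    simpa using this
  · have := congrArg (fun z : ℚ => (z : F)) hy
    push_cast at this
    exact this

theorem t_CLO : S_CLO := by
  intro n D a ha hiso
  have key : ∀ (F : Type) [NormedField F] [CharZero F], NearSq F →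
      ∃ δ : ℝ, 0 < δ ∧ ∀ b : ℚ, ‖((b - a : ℚ) : F)‖ < δ →
        (∀ i, aeval b (D i) ≠ 0) ∧ Iso fun i => ((aeval b (D i) : ℚ) : F) := by
    intro F _ _ hV
    obtain ⟨δ, hδ, h⟩ := gen hV D (a : F) (fun i => by
      rw [aeval_cast]
      exact_mod_cast ha i) (by
      have := iso_cast (F := F) hiso
      simpa only [aeval_cast] using this)
    refine ⟨δ, hδ, fun b hb => ?_⟩
    obtain ⟨h1, h2⟩ := h (b : F) (by
      rw [← Rat.cast_sub]
      exact hb)
    refine ⟨fun i h0 => h1 i ?_, ?_⟩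
    · rw [aeval_cast, h0, Rat.cast_zero]
    · simpa only [aeval_cast] using h2
  constructor
  · obtain ⟨δ, hδ, h⟩ := key ℝ near_real
    exact ⟨δ, hδ, fun b hb => h b (by rw [Real.norm_eq_abs]; exact hb)⟩
  · intro p _
    obtain ⟨δ, hδ, h⟩ := key ℚ_[p] (near_padic p)
    exact ⟨δ, hδ, fun b hb => (h b hb).2⟩

end Pool.Agent.U129.PC
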