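import Mathlib

/-!
Convolution walks on finite abelian groups: laws, total variation distance, mixing times.
-/

set_option autoImplicit false
set_option linter.unusedSectionVars false

namespace Pool.Agent.U129.PC

open Finset

section General

variable {G : Type} [AddCommGroup G] [Fintype G] [DecidableEq G]

/-- The convolution of two functions on a finite abelian group. -/
def conv (f g : G → ℝ) : G → ℝ := fun x => ∑ y, f y * g (x - y)

/-- The law after `t` steps of the walk started at `0` with i.i.d. increments of law `μ`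
(the `t`-fold convolution power of `μ`). -/
def law (μ : G → ℝ) : ℕ → G → ℝ
  | 0 => fun x => if x = 0 then 1 else 0
  | t + 1 => conv (law μ t) μ

/-- The uniform distribution. -/
noncomputable def unif (G : Type) [Fintype G] : G → ℝ := fun _ => 1 / (Fintype.card G : ℝ)

/-- Total variation distance. -/
noncomputable def tv (f g : G → ℝ) : ℝ := 1 / 2 * ∑ x, |f x - g x|

/-- `μ` is a probability measure on `G`. -/
def IsProb (μ : G → ℝ) : Prop := (∀ x, 0 ≤ μ x) ∧ ∑ x, μ x = 1

/-- `T_mix(ε)`: the first time at which the total variation distance to the uniform distribution is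
at most `ε`. -/
noncomputable def Tmix (μ : G → ℝ) (ε : ℝ) : ℕ := sInf {t : ℕ | tv (law μ t) (unif G) ≤ ε}

lemma law_zero (μ : G → ℝ) : law μ 0 = fun x => if x = 0 then (1 : ℝ) else 0 := rfl

lemma law_succ (μ : G → ℝ) (t : ℕ) : law μ (t + 1) = conv (law μ t) μ := rfl

/-- point mass at `0` -/
def pt0 (G : Type) [AddCommGroup G] [DecidableEq G] : G → ℝ := fun x => if x = 0 then 1 else 0

lemma isProb_pt0 : IsProb (pt0 G) := by
  refine ⟨fun x => ?_, ?_⟩
  · unfold pt0; split_ifs <;> norm_num
  · unfold pt0; simp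

lemma isProb_unif : IsProb (unif G) := by
  refine ⟨fun x => by unfold unif; positivity, ?_⟩
  unfold unif
  rw [Finset.sum_const, Finset.card_univ, nsmul_eq_mul]
  have : (Fintype.card G : ℝ) ≠ 0 := by
    exact_mod_cast Fintype.card_ne_zero
  field_simp

lemma sum_conv (f g : G → ℝ) : ∑ x, conv f g x = (∑ x, f x) * ∑ x, g x := by
  unfold conv
  rw [Finset.sum_comm, Finset.sum_mul]
  refine Finset.sum_congr rfl fun y _ => ?_
  rw [← Finset.mul_sum]
  congr 1
  exact (Equiv.subRight y).sum_comp g

lemma isProb_conv {f g : G → ℝ} (hf : IsProb f) (hg : IsProb g) : IsProb (conv f g) := by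
  refine ⟨fun x => Finset.sum_nonneg fun y _ => mul_nonneg (hf.1 y) (hg.1 _), ?_⟩
  rw [sum_conv, hf.2, hg.2, one_mul]

lemma isProb_law {μ : G → ℝ} (hμ : IsProb μ) (t : ℕ) : IsProb (law μ t) := by
  induction t with
  | zero => exact isProb_pt0
  | succ t ih => exact isProb_conv ih hμ

lemma conv_unif_left {g : G → ℝ} (hg : ∑ x, g x = 1) : conv (unif G) g = unif G := by
  funext x
  unfold conv unif
  rw [← Finset.mul_sum]
  have : ∑ y, g (x - y) = 1 := by
    rw [← hg]
    exact (Equiv.subLeft x).sum_comp g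
  rw [this, mul_one]

lemma conv_unif_right {f : G → ℝ} (hf : ∑ x, f x = 1) : conv f (unif G) = unif G := by
  funext x
  unfold conv unif
  rw [← Finset.sum_mul, hf, one_mul]

lemma conv_pt0_left (g : G → ℝ) : conv (pt0 G) g = g := by
  funext x
  unfold conv pt0
  simp

lemma conv_add_left (f f' g : G → ℝ) : conv (f + f') g = conv f g + conv f' g := by
  funext x
  simp [conv, add_mul, Finset.sum_add_distrib]

lemma conv_smul_left (a : ℝ) (f g : G → ℝ) : conv (a • f) g = a • conv f g := by
  funext x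
  simp [conv, mul_assoc, Finset.mul_sum]

lemma conv_add_right (f g g' : G → ℝ) : conv f (g + g') = conv f g + conv f g' := by
  funext x
  simp [conv, mul_add, Finset.sum_add_distrib]

lemma conv_smul_right (a : ℝ) (f g : G → ℝ) : conv f (a • g) = a • conv f g := by
  funext x
  simp only [conv, Pi.smul_apply, smul_eq_mul, Finset.mul_sum]
  exact Finset.sum_congr rfl fun y _ => by ring

lemma tv_nonneg (f g : G → ℝ) : 0 ≤ tv f g := by
  unfold tv
  have : 0 ≤ ∑ x, |f x - g x| := Finset.sum_nonneg fun x _ => abs_nonneg _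
  linarith

lemma tv_triangle (f g h : G → ℝ) : tv f h ≤ tv f g + tv g h := by
  unfold tv
  rw [← mul_add, ← Finset.sum_add_distrib]
  refine mul_le_mul_of_nonneg_left ?_ (by norm_num)
  exact Finset.sum_le_sum fun x _ => abs_sub_le _ _ _

lemma tv_comm (f g : G → ℝ) : tv f g = tv g f := by
  unfold tv
  congr 1
  exact Finset.sum_congr rfl fun x _ => abs_sub_comm _ _

/-- lower bound by the difference of the probabilities of an event -/
lemma tv_ge_event {f g : G → ℝ} (h : ∑ x, f x = ∑ x, g x) (E : Finset G) :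
    ∑ x ∈ E, f x - ∑ x ∈ E, g x ≤ tv f g := by
  unfold tv
  have h1 : ∑ x ∈ E, (f x - g x) + ∑ x ∈ Eᶜ, (f x - g x) = 0 := by
    rw [Finset.sum_add_sum_compl, Finset.sum_sub_distrib, h, sub_self]
  have h2 : ∑ x, |f x - g x| = ∑ x ∈ E, |f x - g x| + ∑ x ∈ Eᶜ, |f x - g x| :=
    (Finset.sum_add_sum_compl E _).symm
  have h3 : ∑ x ∈ E, (f x - g x) ≤ ∑ x ∈ E, |f x - g x| :=
    Finset.sum_le_sum fun x _ => le_abs_self _
  have h4 : -∑ x ∈ Eᶜ, (f x - g x) ≤ ∑ x ∈ Eᶜ, |f x - g x| := by
    rw [← Finset.sum_neg_distrib]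
    exact Finset.sum_le_sum fun x _ => neg_le_abs _
  rw [← Finset.sum_sub_distrib, h2]
  linarith

lemma tv_conv_left {f g : G → ℝ} {μ : G → ℝ} (hμ : IsProb μ) :
    tv (conv f μ) (conv g μ) ≤ tv f g := by
  unfold tv
  refine mul_le_mul_of_nonneg_left ?_ (by norm_num)
  calc ∑ x, |conv f μ x - conv g μ x| ≤ ∑ x, ∑ y, |f y - g y| * μ (x - y) := by
        refine Finset.sum_le_sum fun x _ => ?_
        unfold conv
        rw [← Finset.sum_sub_distrib]
        refine (Finset.abs_sum_le_sum_abs _ _).trans (le_of_eq ?_)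
        refine Finset.sum_congr rfl fun y _ => ?_
        rw [← sub_mul, abs_mul, abs_of_nonneg (hμ.1 _)]
    _ = ∑ x, conv (fun y => |f y - g y|) μ x := rfl
    _ = ∑ x, |f x - g x| := by rw [sum_conv, hμ.2, mul_one]

lemma tv_conv_right {f : G → ℝ} {μ μ' : G → ℝ} (hf : IsProb f) :
    tv (conv f μ) (conv f μ') ≤ tv μ μ' := by
  unfold tv
  refine mul_le_mul_of_nonneg_left ?_ (by norm_num)
  calc ∑ x, |conv f μ x - conv f μ' x| ≤ ∑ x, ∑ y, f y * |μ (x - y) - μ' (x - y)| := by
        refine Finset.sum_le_sum fun x _ => ?_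
        unfold conv
        rw [← Finset.sum_sub_distrib]
        refine (Finset.abs_sum_le_sum_abs _ _).trans (le_of_eq ?_)
        refine Finset.sum_congr rfl fun y _ => ?_
        rw [← mul_sub, abs_mul, abs_of_nonneg (hf.1 _)]
    _ = ∑ x, conv f (fun z => |μ z - μ' z|) x := rfl
    _ = ∑ x, |μ x - μ' x| := by rw [sum_conv, hf.2, one_mul]

lemma tv_law_law {μ μ' : G → ℝ} (hμ : IsProb μ) (hμ' : IsProb μ') (t : ℕ) :
    tv (law μ t) (law μ' t) ≤ t * tv μ μ' := by
  induction t with
  | zero => simp [tv, law]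
  | succ t ih =>
    rw [law_succ, law_succ]
    refine (tv_triangle _ (conv (law μ' t) μ) _).trans ?_
    have h1 := tv_conv_left (f := law μ t) (g := law μ' t) hμ
    have h2 := tv_conv_right (μ := μ) (μ' := μ') (isProb_law hμ' t)
    push_cast
    nlinarith

/-- a subgroup charged by `μ` -/
lemma law_subgroup {μ : G → ℝ} (hμ : IsProb μ) (A : Finset G) (h0 : (0 : G) ∈ A)
    (hA : ∀ x ∈ A, ∀ y ∈ A, x + y ∈ A) (hn : ∀ x ∈ A, -x ∈ A) (t : ℕ) :
    (∑ x ∈ A, μ x) ^ t ≤ ∑ x ∈ A, law μ t x := by
  induction t with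
  | zero => simp [law_zero, h0]
  | succ t ih =>
    rw [law_succ, pow_succ]
    unfold conv
    rw [Finset.sum_comm]
    calc (∑ x ∈ A, μ x) ^ t * ∑ x ∈ A, μ x
        ≤ (∑ x ∈ A, law μ t x) * ∑ x ∈ A, μ x :=
          mul_le_mul_of_nonneg_right ih (Finset.sum_nonneg fun x _ => hμ.1 x)
      _ = ∑ y ∈ A, law μ t y * ∑ x ∈ A, μ (x - y) := by
          rw [Finset.sum_mul]
          refine Finset.sum_congr rfl fun y hy => ?_
          congr 1
          refine Finset.sum_bij' (fun x _ => x + y) (fun x _ => x - y) ?_ ?_ ?_ ?_ ?_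
          · intro x hx; exact hA x hx y hy
          · intro x hx; rw [sub_eq_add_neg]; exact hA x hx _ (hn y hy)
          · intro x _; simp
          · intro x _; simp
          · intro x _; simp
      _ ≤ ∑ y, law μ t y * ∑ x ∈ A, μ (x - y) := by
          refine Finset.sum_le_sum_of_subset_of_nonneg (Finset.subset_univ _) fun y _ _ => ?_
          exact mul_nonneg ((isProb_law hμ t).1 y) (Finset.sum_nonneg fun x _ => hμ.1 _)
      _ = _ := by
          refine Finset.sum_congr rfl fun y _ => ?_
          rw [Finset.mul_sum]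

end General

section Transfer

variable {G G' : Type} [AddCommGroup G] [Fintype G] [DecidableEq G]
  [AddCommGroup G'] [Fintype G'] [DecidableEq G']

lemma law_equiv (e : G' ≃+ G) (μ : G → ℝ) (t : ℕ) :
    law (fun x => μ (e x)) t = fun x => law μ t (e x) := by
  induction t with
  | zero =>
    funext x
    simp [law_zero]
  | succ t ih =>
    funext x
    rw [law_succ, law_succ, ih]
    unfold conv
    simp only [map_sub]
    exact e.toEquiv.sum_comp (fun y => law μ t y * μ (e x - y))

lemma tv_equiv (e : G' ≃+ G) (f g : G → ℝ) :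
    tv (fun x => f (e x)) (fun x => g (e x)) = tv f g := by
  unfold tv
  congr 1
  exact e.toEquiv.sum_comp (fun y => |f y - g y|)

lemma unif_equiv (e : G' ≃+ G) : (fun x => unif G (e x)) = unif G' := by
  funext x
  unfold unif
  rw [Fintype.card_congr e.toEquiv]

lemma tv_law_equiv (e : G' ≃+ G) (μ : G → ℝ) (t : ℕ) :
    tv (law (fun x => μ (e x)) t) (unif G') = tv (law μ t) (unif G) := by
  rw [law_equiv, ← unif_equiv e, tv_equiv]

end Transfer

section Product

variable {K H : Type} [AddCommGroup K] [Fintype K] [DecidableEq K]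
  [AddCommGroup H] [Fintype H] [DecidableEq H]

/-- product function -/
def ten (f : K → ℝ) (g : H → ℝ) : K × H → ℝ := fun p => f p.1 * g p.2

lemma conv_ten (f f' : K → ℝ) (g g' : H → ℝ) :
    conv (ten f g) (ten f' g') = ten (conv f f') (conv g g') := by
  funext p
  unfold conv ten
  rw [Fintype.sum_prod_type, Finset.sum_mul_sum]
  refine Finset.sum_congr rfl fun x _ => Finset.sum_congr rfl fun y _ => ?_
  simp only [Prod.fst_sub, Prod.snd_sub]
  ring

lemma sum_ten (f : K → ℝ) (g : H → ℝ) : ∑ p, ten f g p = (∑ x, f x) * ∑ y, g y := by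
  unfold ten
  rw [Fintype.sum_prod_type, Finset.sum_mul_sum]

lemma isProb_ten {f : K → ℝ} {g : H → ℝ} (hf : IsProb f) (hg : IsProb g) :
    IsProb (ten f g) := by
  refine ⟨fun p => mul_nonneg (hf.1 _) (hg.1 _), ?_⟩
  rw [sum_ten, hf.2, hg.2, one_mul]

lemma ten_unif : ten (unif K) (unif H) = unif (K × H) := by
  funext p
  unfold ten unif
  rw [Fintype.card_prod]
  push_cast
  rw [one_div_mul_one_div]

/-- the ideal step law: with probability `a` a step of law `ν` together with a uniform second
coordinate, with probability `d` a uniform first coordinate -/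
noncomputable def ideal (ν : K → ℝ) (H : Type) [AddCommGroup H] [Fintype H] [DecidableEq H]
    (a d : ℝ) : K × H → ℝ :=
  a • ten ν (unif H) + d • ten (unif K) (pt0 H)

lemma isProb_ideal {ν : K → ℝ} (hν : IsProb ν) {a d : ℝ} (ha : 0 ≤ a) (hd : 0 ≤ d)
    (had : a + d = 1) : IsProb (ideal ν H a d) := by
  have h1 := isProb_ten hν (isProb_unif (G := H))
  have h2 := isProb_ten (isProb_unif (G := K)) (isProb_pt0 (G := H))
  refine ⟨fun p => ?_, ?_⟩
  · unfold ideal
    simp only [Pi.add_apply, Pi.smul_apply, smul_eq_mul]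
    exact add_nonneg (mul_nonneg ha (h1.1 _)) (mul_nonneg hd (h2.1 _))
  · unfold ideal
    simp only [Pi.add_apply, Pi.smul_apply, smul_eq_mul]
    rw [Finset.sum_add_distrib, ← Finset.mul_sum, ← Finset.mul_sum, h1.2, h2.2]
    linarith

lemma law_ideal {ν : K → ℝ} (hν : IsProb ν) {a d : ℝ} (had : a + d = 1) (t : ℕ) :
    law (ideal ν H a d) (t + 1) = a ^ (t + 1) • ten (law ν (t + 1)) (unif H) +
      (1 - a ^ (t + 1) - d ^ (t + 1)) • unif (K × H) + d ^ (t + 1) • ten (unif K) (pt0 H) := by
  have hs : ∑ x, ideal ν H a d x = 1 := by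
    have h1 := isProb_ten hν (isProb_unif (G := H))
    have h2 := isProb_ten (isProb_unif (G := K)) (isProb_pt0 (G := H))
    unfold ideal
    simp only [Pi.add_apply, Pi.smul_apply, smul_eq_mul]
    rw [Finset.sum_add_distrib, ← Finset.mul_sum, ← Finset.mul_sum, h1.2, h2.2]
    linarith
  induction t with
  | zero =>
    rw [law_succ]
    have : law (ideal ν H a d) 0 = pt0 (K × H) := rfl
    rw [this, conv_pt0_left, law_succ]
    have : law ν 0 = pt0 K := rfl
    rw [this, conv_pt0_left]
    simp only [zero_add, pow_one]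
    have h0 : 1 - a - d = 0 := by linarith
    rw [h0, zero_smul, add_zero]
    rfl
  | succ t ih =>
    rw [law_succ, ih, conv_add_left, conv_add_left, conv_smul_left, conv_smul_left,
      conv_smul_left, conv_unif_left hs]
    have e1 : conv (ten (law ν (t + 1)) (unif H)) (ideal ν H a d) =
        a • ten (law ν (t + 1 + 1)) (unif H) + d • unif (K × H) := by
      unfold ideal
      rw [conv_add_right, conv_smul_right, conv_smul_right, conv_ten, conv_ten,
        conv_unif_left isProb_unif.2, conv_unif_left isProb_pt0.2,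
        conv_unif_right (isProb_law hν (t + 1)).2, ten_unif]
      rfl
    have e2 : conv (ten (unif K) (pt0 H)) (ideal ν H a d) =
        a • unif (K × H) + d • ten (unif K) (pt0 H) := by
      unfold ideal
      rw [conv_add_right, conv_smul_right, conv_smul_right, conv_ten, conv_ten,
        conv_unif_left hν.2, conv_unif_left isProb_unif.2, conv_pt0_left, conv_pt0_left, ten_unif]
    rw [e1, e2]
    funext p
    simp only [Pi.add_apply, Pi.smul_apply, smul_eq_mul]
    have hd : d = 1 - a := by linarith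
    subst hd
    ring

lemma tv_ideal_le {ν : K → ℝ} (hν : IsProb ν) {a d : ℝ} (ha : 0 ≤ a) (hd : 0 ≤ d)
    (had : a + d = 1) (t : ℕ) :
    tv (law (ideal ν H a d) (t + 1)) (unif (K × H)) ≤ a ^ (t + 1) + d ^ (t + 1) := by
  rw [law_ideal hν had]
  unfold tv
  have h1 := isProb_ten (isProb_law hν (t + 1)) (isProb_unif (G := H))
  have h2 := isProb_ten (isProb_unif (G := K)) (isProb_pt0 (G := H))
  have h3 := isProb_unif (G := K × H)
  set A := a ^ (t + 1)
  set D := d ^ (t + 1)
  have hA : 0 ≤ A := by positivity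
  have hD : 0 ≤ D := by positivity
  have key : ∀ p : K × H, |(A • ten (law ν (t + 1)) (unif H) + (1 - A - D) • unif (K × H) +
      D • ten (unif K) (pt0 H)) p - unif (K × H) p| ≤
      A * (ten (law ν (t + 1)) (unif H) p + unif (K × H) p) +
      D * (ten (unif K) (pt0 H) p + unif (K × H) p) := by
    intro p
    simp only [Pi.add_apply, Pi.smul_apply, smul_eq_mul]
    have e1 := h1.1 p
    have e2 := h2.1 p
    have e3 := h3.1 p
    rw [abs_le]
    constructor <;> nlinarith [mul_nonneg hA e1, mul_nonneg hA e3, mul_nonneg hD e2,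
      mul_nonneg hD e3]
  calc 1 / 2 * ∑ p, _ ≤ 1 / 2 * ∑ p, (A * (ten (law ν (t + 1)) (unif H) p + unif (K × H) p) +
      D * (ten (unif K) (pt0 H) p + unif (K × H) p)) := by
        refine mul_le_mul_of_nonneg_left ?_ (by norm_num)
        exact Finset.sum_le_sum fun p _ => key p
    _ = A + D := by
        rw [Finset.sum_add_distrib, ← Finset.mul_sum, ← Finset.mul_sum, Finset.sum_add_distrib,
          Finset.sum_add_distrib, h1.2, h2.2, h3.2]
        ring

lemma sum_ten_event (f : K → ℝ) (g : H → ℝ) (E : Finset K) :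
    ∑ p ∈ E ×ˢ (Finset.univ : Finset H), ten f g p = (∑ x ∈ E, f x) * ∑ y, g y := by
  unfold ten
  rw [Finset.sum_product, Finset.sum_mul_sum]

lemma tv_ideal_ge {ν : K → ℝ} (hν : IsProb ν) {a d : ℝ} (ha : 0 ≤ a) (hd : 0 ≤ d)
    (had : a + d = 1) (t : ℕ) (E : Finset K) :
    a ^ (t + 1) * (∑ x ∈ E, law ν (t + 1) x - ∑ x ∈ E, unif K x) ≤
      tv (law (ideal ν H a d) (t + 1)) (unif (K × H)) := by
  have h1 := (isProb_law (isProb_ideal (H := H) hν ha hd had) (t + 1)).2
  have h3 := isProb_unif (G := K × H)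
  refine le_trans (le_of_eq ?_) (tv_ge_event (h1.trans h3.2.symm)
    (E ×ˢ (Finset.univ : Finset H)))
  rw [law_ideal hν had, ← ten_unif]
  simp only [Pi.add_apply, Pi.smul_apply, smul_eq_mul]
  rw [Finset.sum_add_distrib, Finset.sum_add_distrib, ← Finset.mul_sum, ← Finset.mul_sum,
    ← Finset.mul_sum, sum_ten_event, sum_ten_event, sum_ten_event, isProb_unif.2,
    isProb_pt0.2]
  ring

end Product

section PiProduct

variable {ι : Type} [Fintype ι] [DecidableEq ι] {K : ι → Type} [∀ i, AddCommGroup (K i)]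
  [∀ i, Fintype (K i)] [∀ i, DecidableEq (K i)]

/-- product of finitely many functions -/
def pten (f : ∀ i, K i → ℝ) : (∀ i, K i) → ℝ := fun x => ∏ i, f i (x i)

lemma sum_pten (f : ∀ i, K i → ℝ) : ∑ x, pten f x = ∏ i, ∑ y, f i y := by
  unfold pten
  rw [Finset.prod_univ_sum]
  simp

lemma sum_pten_event (f : ∀ i, K i → ℝ) (E : ∀ i, Finset (K i)) :
    ∑ x ∈ Fintype.piFinset E, pten f x = ∏ i, ∑ y ∈ E i, f i y := by
  unfold pten
  rw [Finset.prod_univ_sum]

lemma conv_pten (f g : ∀ i, K i → ℝ) :
    conv (pten f) (pten g) = pten (fun i => conv (f i) (g i)) := by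
  funext x
  unfold conv pten
  rw [Finset.prod_univ_sum]
  simp only [Fintype.piFinset_univ, Pi.sub_apply]
  refine Finset.sum_congr rfl fun y _ => ?_
  rw [Finset.prod_mul_distrib]

lemma isProb_pten {f : ∀ i, K i → ℝ} (hf : ∀ i, IsProb (f i)) : IsProb (pten f) := by
  refine ⟨fun x => Finset.prod_nonneg fun i _ => (hf i).1 _, ?_⟩
  rw [sum_pten]
  exact Finset.prod_eq_one fun i _ => (hf i).2

lemma law_pten (f : ∀ i, K i → ℝ) (t : ℕ) :
    law (pten f) t = pten (fun i => law (f i) t) := by
  induction t with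
  | zero =>
    funext x
    unfold pten
    simp only [law_zero]
    by_cases h : x = 0
    · subst h; simp
    · rw [if_neg h]
      obtain ⟨i, hi⟩ : ∃ i, x i ≠ 0 := by
        by_contra hcon
        push Not at hcon
        exact h (funext hcon)
      rw [Finset.prod_eq_zero (Finset.mem_univ i)]
      simp [hi]
  | succ t ih =>
    rw [law_succ, ih, conv_pten]
    rfl

/-- probability that some coordinate lies in its subgroup -/
lemma pten_event_ge {f : ∀ i, K i → ℝ} (hf : ∀ i, IsProb (f i)) (A : ∀ i, Finset (K i))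
    (h0 : ∀ i, (0 : K i) ∈ A i) (hA : ∀ i, ∀ x ∈ A i, ∀ y ∈ A i, x + y ∈ A i)
    (hn : ∀ i, ∀ x ∈ A i, -x ∈ A i) (c : ℝ) (hc0 : 0 ≤ c) (hc : ∀ i, c ≤ ∑ x ∈ A i, f i x)
    (t : ℕ) :
    1 - (1 - c ^ t) ^ (Fintype.card ι) ≤
      ∑ x ∈ (Fintype.piFinset (fun i => (A i)ᶜ))ᶜ, law (pten f) t x := by
  have h1 : ∑ x ∈ Fintype.piFinset (fun i => (A i)ᶜ), law (pten f) t x ≤
      (1 - c ^ t) ^ (Fintype.card ι) := by
    rw [law_pten, sum_pten_event]
    calc ∏ i, ∑ y ∈ (A i)ᶜ, law (f i) t y ≤ ∏ _i : ι, (1 - c ^ t) := by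
          refine Finset.prod_le_prod (fun i _ => Finset.sum_nonneg fun y _ =>
            (isProb_law (hf i) t).1 y) fun i _ => ?_
          have h2 := law_subgroup (hf i) (A i) (h0 i) (hA i) (hn i) t
          have h3 : c ^ t ≤ (∑ x ∈ A i, f i x) ^ t := pow_le_pow_left₀ hc0 (hc i) t
          have h4 := Finset.sum_add_sum_compl (A i) (law (f i) t)
          rw [(isProb_law (hf i) t).2] at h4
          linarith
      _ = _ := by rw [Finset.prod_const, Finset.card_univ]
  have h2 := Finset.sum_add_sum_compl (Fintype.piFinset (fun i => (A i)ᶜ)) (law (pten f) t)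
  rw [(isProb_law (isProb_pten hf) t).2] at h2
  linarith

lemma pten_unif : pten (fun i => unif (K i)) = unif (∀ i, K i) := by
  funext x
  unfold pten unif
  rw [Fintype.card_pi]
  push_cast
  rw [Finset.prod_div_distrib]
  simp

/-- the same for the uniform distribution -/
lemma unif_event_le (A : ∀ i, Finset (K i)) :
    ∑ x ∈ (Fintype.piFinset (fun i => (A i)ᶜ))ᶜ, unif (∀ i, K i) x ≤
      ∑ i, ((A i).card : ℝ) / Fintype.card (K i) := by
  have hnn : ∀ x, 0 ≤ unif (∀ i, K i) x := isProb_unif.1
  calc ∑ x ∈ (Fintype.piFinset (fun i => (A i)ᶜ))ᶜ, unif (∀ i, K i) x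
      ≤ ∑ x ∈ (Fintype.piFinset (fun i => (A i)ᶜ))ᶜ, ∑ i,
          (if x i ∈ A i then unif (∀ i, K i) x else 0) := by
        refine Finset.sum_le_sum fun x hx => ?_
        simp only [Finset.mem_compl, Fintype.mem_piFinset, not_forall, not_not] at hx
        obtain ⟨i, hi⟩ := hx
        refine le_trans (le_of_eq ?_) (Finset.single_le_sum (f := fun i =>
          (if x i ∈ A i then unif (∀ i, K i) x else 0)) (fun j _ => ?_) (Finset.mem_univ i))
        · simp [hi]
        · split_ifs
          · exact hnn x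
          · exact le_rfl
    _ ≤ ∑ x, ∑ i, (if x i ∈ A i then unif (∀ i, K i) x else 0) := by
        refine Finset.sum_le_sum_of_subset_of_nonneg (Finset.subset_univ _) fun x _ _ => ?_
        refine Finset.sum_nonneg fun i _ => ?_
        split_ifs
        · exact hnn x
        · exact le_rfl
    _ = ∑ i, ∑ x ∈ Finset.univ.filter (fun x : ∀ i, K i => x i ∈ A i), unif (∀ i, K i) x := by
        rw [Finset.sum_comm]
        refine Finset.sum_congr rfl fun i _ => ?_
        rw [Finset.sum_filter]
    _ = ∑ i, ((A i).card : ℝ) / Fintype.card (K i) := by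
        refine Finset.sum_congr rfl fun i _ => ?_
        have : (Finset.univ.filter fun x : ∀ i, K i => x i ∈ A i) =
            Fintype.piFinset (fun j => if h : j = i then h ▸ A i else Finset.univ) := by
          ext x
          simp only [Finset.mem_filter, Finset.mem_univ, true_and, Fintype.mem_piFinset]
          constructor
          · intro hx j
            by_cases h : j = i
            · subst h; simpa using hx
            · simp [h]
          · intro hx
            simpa using hx i
        rw [this, ← pten_unif, sum_pten_event]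
        rw [Finset.prod_eq_single i]
        · simp [unif, div_eq_mul_inv]
        · intro j _ hj
          simp only [dif_neg hj]
          exact isProb_unif.2
        · simp

end PiProduct

end Pool.Agent.U129.PC
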