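import Mathlib
import Pool.Agent.U129.PC.Basic

/-!
Uniform distributions on sets, character sums, and the block `{(x, y) : x = 0 or y = 0}`.
-/

set_option autoImplicit false
set_option linter.unusedSectionVars false

namespace Pool.Agent.U129.PC

open Finset

section UnifOn

variable {G : Type} [AddCommGroup G] [Fintype G] [DecidableEq G]

/-- the uniform distribution on a finite set `S` -/
noncomputable def unifOn (S : Finset G) : G → ℝ := fun x => if x ∈ S then 1 / (S.card : ℝ) else 0

lemma isProb_unifOn {S : Finset G} (hS : S.Nonempty) : IsProb (unifOn S) := by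
  refine ⟨fun x => ?_, ?_⟩
  · unfold unifOn; split_ifs
    · positivity
    · exact le_rfl
  · unfold unifOn
    rw [Finset.sum_ite_mem, Finset.univ_inter, Finset.sum_const, nsmul_eq_mul]
    have : (S.card : ℝ) ≠ 0 := by exact_mod_cast hS.card_ne_zero
    field_simp

lemma sum_unifOn (S E : Finset G) :
    ∑ x ∈ E, unifOn S x = ((E ∩ S).card : ℝ) / S.card := by
  unfold unifOn
  rw [Finset.sum_ite_mem, Finset.sum_const, nsmul_eq_mul, mul_one_div]

lemma tv_unifOn_erase (hG : 2 ≤ Fintype.card G) :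
    tv (unifOn ((Finset.univ : Finset G).erase 0)) (unif G) ≤ 1 / (Fintype.card G : ℝ) := by
  unfold tv
  rw [← Finset.add_sum_erase _ _ (Finset.mem_univ (0 : G))]
  have h1 : |unifOn ((Finset.univ : Finset G).erase 0) 0 - unif G 0| =
      1 / (Fintype.card G : ℝ) := by
    unfold unifOn unif
    simp
  have hc : (2 : ℝ) ≤ Fintype.card G := by exact_mod_cast hG
  have hcard : (((Finset.univ : Finset G).erase 0).card : ℝ) = (Fintype.card G : ℝ) - 1 := by
    rw [Finset.card_erase_of_mem (Finset.mem_univ _), Finset.card_univ, Nat.cast_sub (by omega)]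
    simp
  have h2 : ∑ x ∈ (Finset.univ : Finset G).erase 0,
      |unifOn ((Finset.univ : Finset G).erase 0) x - unif G x| = 1 / (Fintype.card G : ℝ) := by
    have : ∀ x ∈ (Finset.univ : Finset G).erase 0,
        |unifOn ((Finset.univ : Finset G).erase 0) x - unif G x| =
          1 / ((Fintype.card G : ℝ) - 1) - 1 / (Fintype.card G : ℝ) := by
      intro x hx
      unfold unifOn unif
      rw [if_pos hx, hcard, abs_of_nonneg]
      rw [sub_nonneg]
      apply one_div_le_one_div_of_le <;> linarith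
    rw [Finset.sum_congr rfl this, Finset.sum_const, nsmul_eq_mul, hcard]
    have h3 : (Fintype.card G : ℝ) - 1 ≠ 0 := by
      have : (0 : ℝ) < (Fintype.card G : ℝ) - 1 := by linarith
      exact this.ne'
    have h4 : (Fintype.card G : ℝ) ≠ 0 := by
      have : (0 : ℝ) < (Fintype.card G : ℝ) := by linarith
      exact this.ne'
    field_simp
    ring
  rw [h1, h2]
  linarith [show (0 : ℝ) ≤ 1 / (Fintype.card G : ℝ) by positivity]

end UnifOn

section Char

variable {G : Type} [AddCommGroup G] [Fintype G] [DecidableEq G]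

/-- a character of a finite abelian group, given as a plain function -/
def IsChar (χ : G → ℂ) : Prop := χ 0 = 1 ∧ ∀ x y, χ (x + y) = χ x * χ y

lemma IsChar.sum_eq_zero {χ : G → ℂ} (hχ : IsChar χ) {a : G} (ha : χ a ≠ 1) :
    ∑ x, χ x = 0 := by
  have h1 : ∑ x, χ (x + a) = ∑ x, χ x := Equiv.sum_comp (Equiv.addRight a) χ
  have h2 : ∑ x, χ (x + a) = (∑ x, χ x) * χ a := by
    rw [Finset.sum_mul]
    exact Finset.sum_congr rfl fun x _ => hχ.2 x a
  rw [h2] at h1
  have h3 : (∑ x, χ x) * (χ a - 1) = 0 := by rw [mul_sub, h1]; ring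
  rcases mul_eq_zero.1 h3 with h | h
  · exact h
  · exact absurd (sub_eq_zero.1 h) ha

lemma IsChar.sum_erase {χ : G → ℂ} (hχ : IsChar χ) {a : G} (ha : χ a ≠ 1) :
    ∑ x ∈ (Finset.univ : Finset G).erase 0, χ x = -1 := by
  have h := Finset.add_sum_erase _ χ (Finset.mem_univ (0 : G))
  rw [hχ.sum_eq_zero ha, hχ.1] at h
  linear_combination h

lemma sum_one_erase {χ : G → ℂ} (h1 : ∀ x, χ x = 1) (hG : 1 ≤ Fintype.card G) :
    ∑ x ∈ (Finset.univ : Finset G).erase 0, χ x = (Fintype.card G : ℂ) - 1 := by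
  rw [Finset.sum_congr rfl fun x _ => h1 x, Finset.sum_const,
    Finset.card_erase_of_mem (Finset.mem_univ _), Finset.card_univ, nsmul_eq_mul, mul_one,
    Nat.cast_sub hG]
  simp

end Char

section Block

variable {B A : Type} [AddCommGroup B] [Fintype B] [DecidableEq B]
  [AddCommGroup A] [Fintype A] [DecidableEq A]

/-- the union of the two coordinate subgroups of `B × A` -/
def cross (B A : Type) [AddCommGroup B] [Fintype B] [DecidableEq B]
    [AddCommGroup A] [Fintype A] [DecidableEq A] : Finset (B × A) :=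
  Finset.univ.filter fun p => p.1 = 0 ∨ p.2 = 0

lemma cross_eq : cross B A = ({0} ×ˢ (Finset.univ : Finset A)) ∪
    (((Finset.univ : Finset B).erase 0) ×ˢ {0}) := by
  ext p
  simp only [cross, Finset.mem_filter, Finset.mem_univ, true_and, Finset.mem_union,
    Finset.mem_product, Finset.mem_singleton, Finset.mem_erase, and_true]
  tauto

lemma cross_disj : Disjoint (({0} : Finset B) ×ˢ (Finset.univ : Finset A))
    (((Finset.univ : Finset B).erase 0) ×ˢ ({0} : Finset A)) := by
  rw [Finset.disjoint_left]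
  intro p hp hq
  simp only [Finset.mem_product, Finset.mem_singleton, Finset.mem_univ, and_true,
    Finset.mem_erase] at hp hq
  exact hq.1 hp

lemma card_cross : (cross B A).card = Fintype.card A + (Fintype.card B - 1) := by
  rw [cross_eq, Finset.card_union_of_disjoint cross_disj, Finset.card_product,
    Finset.card_product, Finset.card_erase_of_mem (Finset.mem_univ _)]
  simp

lemma zero_mem_cross : (0 : B × A) ∈ cross B A := by simp [cross]

/-- the subgroup `{x = 0}` -/
def axis (B A : Type) [AddCommGroup B] [Fintype B] [DecidableEq B]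
    [AddCommGroup A] [Fintype A] [DecidableEq A] : Finset (B × A) :=
  Finset.univ.filter fun p => p.1 = 0

lemma axis_eq : axis B A = ({0} ×ˢ (Finset.univ : Finset A)) := by
  ext p
  simp only [axis, Finset.mem_filter, Finset.mem_univ, true_and, Finset.mem_product,
    Finset.mem_singleton, and_true]

lemma card_axis : (axis B A).card = Fintype.card A := by
  rw [axis_eq, Finset.card_product]; simp

lemma axis_ge (h : Fintype.card B ≤ Fintype.card A + 1) (hA : 1 ≤ Fintype.card A)
    (hB : 1 ≤ Fintype.card B) :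
    (1 : ℝ) / 2 ≤ ∑ x ∈ axis B A, unifOn (cross B A) x := by
  rw [sum_unifOn]
  have : axis B A ∩ cross B A = axis B A := by
    rw [Finset.inter_eq_left]
    intro p hp
    simp only [axis, cross, Finset.mem_filter, Finset.mem_univ, true_and] at hp ⊢
    exact Or.inl hp
  rw [this, card_axis, card_cross]
  have h1 : ((Fintype.card A + (Fintype.card B - 1) : ℕ) : ℝ) ≤ 2 * Fintype.card A := by
    exact_mod_cast (by omega : Fintype.card A + (Fintype.card B - 1) ≤ 2 * Fintype.card A)
  have h2 : (0 : ℝ) < ((Fintype.card A + (Fintype.card B - 1) : ℕ) : ℝ) := by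
    exact_mod_cast (by omega : 0 < Fintype.card A + (Fintype.card B - 1))
  rw [le_div_iff₀ h2]
  linarith

lemma cross_char {χ : B × A → ℂ} (hχ : IsChar χ) {a : B × A} (ha : χ a ≠ 1)
    (hB : 1 ≤ Fintype.card B) (hBA : Fintype.card B ≤ Fintype.card A) :
    ‖∑ x ∈ cross B A, χ x‖ ≤ Fintype.card A := by
  rw [cross_eq, Finset.sum_union cross_disj, Finset.sum_product, Finset.sum_product]
  simp only [Finset.sum_singleton]
  have hcA : IsChar fun y : A => χ (0, y) := by
    refine ⟨hχ.1, fun x y => ?_⟩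
    rw [← hχ.2]; simp
  have hcB : IsChar fun x : B => χ (x, 0) := by
    refine ⟨hχ.1, fun x y => ?_⟩
    rw [← hχ.2]; simp
  have hprod : χ a = χ (a.1, 0) * χ (0, a.2) := by
    rw [← hχ.2]; simp
  have hAr : (1 : ℝ) ≤ Fintype.card A := by exact_mod_cast hB.trans hBA
  have hBr : (1 : ℝ) ≤ Fintype.card B := by exact_mod_cast hB
  have hBAr : (Fintype.card B : ℝ) ≤ Fintype.card A := by exact_mod_cast hBA
  by_cases h1 : ∃ y : A, χ (0, y) ≠ 1
  · obtain ⟨y, hy⟩ := h1
    rw [hcA.sum_eq_zero hy, zero_add]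
    by_cases h2 : ∃ x : B, χ (x, 0) ≠ 1
    · obtain ⟨x, hx⟩ := h2
      rw [hcB.sum_erase hx]
      simpa using hAr
    · push Not at h2
      rw [sum_one_erase h2 hB]
      have : (Fintype.card B : ℂ) - 1 = (((Fintype.card B : ℝ) - 1 : ℝ) : ℂ) := by push_cast; ring
      rw [this, Complex.norm_real, Real.norm_eq_abs, abs_of_nonneg (by linarith)]
      linarith
  · push Not at h1
    have h2 : χ (a.1, 0) ≠ 1 := by
      intro h
      apply ha
      rw [hprod, h, h1, one_mul]
    rw [hcB.sum_erase h2, Finset.sum_congr rfl fun y _ => h1 y, Finset.sum_const, nsmul_eq_mul,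
      mul_one, Finset.card_univ]
    have : (Fintype.card A : ℂ) + -1 = (((Fintype.card A : ℝ) - 1 : ℝ) : ℂ) := by push_cast; ring
    rw [this, Complex.norm_real, Real.norm_eq_abs, abs_of_nonneg (by linarith)]
    linarith

end Block

section PiChar

variable {ι : Type} [Fintype ι] [DecidableEq ι] {K : ι → Type} [∀ i, AddCommGroup (K i)]
  [∀ i, Fintype (K i)] [∀ i, DecidableEq (K i)]

lemma IsChar.map_sum {G : Type} [AddCommGroup G] {χ : G → ℂ}
    (h0 : χ 0 = 1) (hadd : ∀ x y, χ (x + y) = χ x * χ y) {κ : Type} (s : Finset κ) (f : κ → G) :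
    χ (∑ i ∈ s, f i) = ∏ i ∈ s, χ (f i) := by
  classical
  induction s using Finset.induction_on with
  | empty => simp [h0]
  | insert a s ha ih => rw [Finset.sum_insert ha, Finset.prod_insert ha, hadd, ih]

lemma char_pi {χ : (∀ i, K i) → ℂ} (hχ : IsChar χ) (x : ∀ i, K i) :
    χ x = ∏ i, χ (Pi.single i (x i)) := by
  conv_lhs => rw [← Finset.univ_sum_single x]
  exact IsChar.map_sum hχ.1 hχ.2 _ _

lemma isChar_single {χ : (∀ i, K i) → ℂ} (hχ : IsChar χ) (i : ι) :
    IsChar fun y : K i => χ (Pi.single i y) := by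
  refine ⟨by simpa using hχ.1, fun x y => ?_⟩
  show χ (Pi.single i (x + y)) = χ (Pi.single i x) * χ (Pi.single i y)
  rw [Pi.single_add, hχ.2]

lemma char_pi_sum {χ : (∀ i, K i) → ℂ} (hχ : IsChar χ) (S : ∀ i, Finset (K i)) :
    ∑ x ∈ Fintype.piFinset S, χ x = ∏ i, ∑ y ∈ S i, χ (Pi.single i y) := by
  rw [Finset.prod_univ_sum]
  exact Finset.sum_congr rfl fun x _ => char_pi hχ x

/-- bound for the character sum over a product set -/
lemma char_pi_bound {χ : (∀ i, K i) → ℂ} (hχ : IsChar χ) {a : ∀ i, K i} (ha : χ a ≠ 1)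
    (hnorm : ∀ x, ‖χ x‖ ≤ 1) (S : ∀ i, Finset (K i)) (c : ℝ) (hc : c ≤ 1) (hc0 : 0 ≤ c)
    (hS : ∀ i, ∀ b : K i, χ (Pi.single i b) ≠ 1 →
      ‖∑ y ∈ S i, χ (Pi.single i y)‖ ≤ c * (S i).card) :
    ‖∑ x ∈ Fintype.piFinset S, χ x‖ ≤ c * (Fintype.piFinset S).card := by
  rw [char_pi_sum hχ, norm_prod, Fintype.card_piFinset]
  obtain ⟨i, hi⟩ : ∃ i, χ (Pi.single i (a i)) ≠ 1 := by
    by_contra hcon
    push Not at hcon
    apply ha
    rw [char_pi hχ]
    exact Finset.prod_eq_one fun i _ => hcon i
  rw [← Finset.mul_prod_erase _ _ (Finset.mem_univ i)]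
  push_cast
  rw [← Finset.mul_prod_erase Finset.univ (fun i => ((S i).card : ℝ)) (Finset.mem_univ i),
    ← mul_assoc]
  refine mul_le_mul (hS i _ hi) ?_ (Finset.prod_nonneg fun j _ => norm_nonneg _) (by positivity)
  refine Finset.prod_le_prod (fun j _ => norm_nonneg _) fun j _ => ?_
  refine (norm_sum_le _ _).trans ?_
  refine (Finset.sum_le_sum fun y _ => hnorm _).trans ?_
  simp

lemma unifOn_pi (S : ∀ i, Finset (K i)) :
    unifOn (Fintype.piFinset S) = pten fun i => unifOn (S i) := by
  funext x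
  unfold unifOn pten
  by_cases h : x ∈ Fintype.piFinset S
  · rw [if_pos h]
    rw [Fintype.mem_piFinset] at h
    rw [Finset.prod_congr rfl fun i _ => if_pos (h i), Fintype.card_piFinset]
    push_cast
    rw [Finset.prod_div_distrib]
    simp
  · rw [if_neg h]
    rw [Fintype.mem_piFinset] at h
    push Not at h
    obtain ⟨i, hi⟩ := h
    rw [Finset.prod_eq_zero (Finset.mem_univ i)]
    exact if_neg hi

end PiChar

section Comb

variable {K H : Type} [AddCommGroup K] [Fintype K] [DecidableEq K]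
  [AddCommGroup H] [Fintype H] [DecidableEq H]

/-- the step set `(X × (H \ {0})) ∪ ((K \ {0}) × {0})` -/
def stepSet (X : Finset K) (H : Type) [AddCommGroup H] [Fintype H] [DecidableEq H] :
    Finset (K × H) :=
  (X ×ˢ ((Finset.univ : Finset H).erase 0)) ∪ (((Finset.univ : Finset K).erase 0) ×ˢ {0})

lemma stepSet_disj (X : Finset K) : Disjoint (X ×ˢ ((Finset.univ : Finset H).erase 0))
    (((Finset.univ : Finset K).erase 0) ×ˢ ({0} : Finset H)) := by
  rw [Finset.disjoint_left]
  intro p hp hq
  simp only [Finset.mem_product, Finset.mem_singleton, Finset.mem_univ, and_true,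
    Finset.mem_erase] at hp hq
  exact hp.2 hq.2

lemma card_stepSet (X : Finset K) : (stepSet X H).card =
    X.card * (Fintype.card H - 1) + (Fintype.card K - 1) := by
  unfold stepSet
  rw [Finset.card_union_of_disjoint (stepSet_disj X), Finset.card_product, Finset.card_product,
    Finset.card_erase_of_mem (Finset.mem_univ _), Finset.card_erase_of_mem (Finset.mem_univ _)]
  simp

lemma zero_notMem_stepSet (X : Finset K) : (0 : K × H) ∉ stepSet X H := by
  simp only [stepSet, Finset.mem_union, Finset.mem_product, Finset.mem_erase, Finset.mem_univ,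
    and_true, Finset.mem_singleton, Prod.fst_zero, Prod.snd_zero, ne_eq, not_true_eq_false,
    and_false, false_and, or_self, not_false_eq_true]

lemma neg_mem_stepSet {X : Finset K} (hX : ∀ x ∈ X, -x ∈ X) {p : K × H}
    (hp : p ∈ stepSet X H) : -p ∈ stepSet X H := by
  simp only [stepSet, Finset.mem_union, Finset.mem_product, Finset.mem_erase, Finset.mem_univ,
    and_true, Finset.mem_singleton, Prod.fst_neg, Prod.snd_neg, neg_eq_zero, ne_eq] at hp ⊢
  rcases hp with h | h
  · exact Or.inl ⟨hX _ h.1, h.2⟩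
  · exact Or.inr h

/-- weights of the two parts -/
noncomputable def wa (X : Finset K) (H : Type) [AddCommGroup H] [Fintype H] [DecidableEq H] : ℝ :=
  (X.card * (Fintype.card H - 1) : ℕ) / ((stepSet X H).card : ℝ)

/-- weights of the two parts -/
noncomputable def wd (X : Finset K) (H : Type) [AddCommGroup H] [Fintype H] [DecidableEq H] : ℝ :=
  ((Fintype.card K - 1 : ℕ) : ℝ) / ((stepSet X H).card : ℝ)

lemma wa_add_wd (X : Finset K) (hK : 2 ≤ Fintype.card K) : wa X H + wd X H = 1 := by
  unfold wa wd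
  rw [← add_div, card_stepSet]
  have : ((X.card * (Fintype.card H - 1) + (Fintype.card K - 1) : ℕ) : ℝ) ≠ 0 := by
    exact_mod_cast (by omega : X.card * (Fintype.card H - 1) + (Fintype.card K - 1) ≠ 0)
  rw [div_eq_one_iff_eq this]
  push_cast
  ring

lemma wa_nonneg (X : Finset K) : 0 ≤ wa X H := by unfold wa; positivity

lemma wd_nonneg (X : Finset K) : 0 ≤ wd X H := by unfold wd; positivity

lemma unifOn_stepSet {X : Finset K} (hX : X.Nonempty) (hK : 2 ≤ Fintype.card K)
    (hH : 2 ≤ Fintype.card H) :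
    unifOn (stepSet X H) =
      wa X H • ten (unifOn X) (unifOn ((Finset.univ : Finset H).erase 0)) +
      wd X H • ten (unifOn ((Finset.univ : Finset K).erase 0)) (pt0 H) := by
  have hXc : (X.card : ℝ) ≠ 0 := by exact_mod_cast hX.card_ne_zero
  have hHc : ((Fintype.card H - 1 : ℕ) : ℝ) ≠ 0 := by
    exact_mod_cast (by omega : Fintype.card H - 1 ≠ 0)
  have hKc : ((Fintype.card K - 1 : ℕ) : ℝ) ≠ 0 := by
    exact_mod_cast (by omega : Fintype.card K - 1 ≠ 0)
  have hMc : ((stepSet X H).card : ℝ) ≠ 0 := by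
    rw [card_stepSet]
    exact_mod_cast (by omega : X.card * (Fintype.card H - 1) + (Fintype.card K - 1) ≠ 0)
  funext p
  obtain ⟨x, y⟩ := p
  simp only [Pi.add_apply, Pi.smul_apply, smul_eq_mul, ten, unifOn, pt0, wa, wd, stepSet,
    Finset.mem_union, Finset.mem_product, Finset.mem_erase, Finset.mem_univ, and_true,
    Finset.mem_singleton, Finset.card_erase_of_mem, Finset.card_univ, ne_eq]
  by_cases hy : y = 0
  · subst hy
    simp only [not_true_eq_false, and_false, false_or, and_true, if_false, mul_zero, zero_add,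
      if_true, mul_one]
    by_cases hx : x = 0
    · simp [hx]
    · simp only [hx, not_false_eq_true, if_true]
      field_simp
  · simp only [hy, not_false_eq_true, and_true, and_false, or_false, if_true, if_false, mul_zero,
      add_zero]
    by_cases hx : x ∈ X
    · simp only [hx, if_true]
      push_cast
      field_simp
    · simp [hx]

lemma tv_ten_right {f : K → ℝ} (hf : IsProb f) (g g' : H → ℝ) :
    tv (ten f g) (ten f g') = tv g g' := by
  unfold tv ten
  congr 1
  rw [Fintype.sum_prod_type]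
  calc ∑ x, ∑ y, |f x * g y - f x * g' y| = ∑ x, f x * ∑ y, |g y - g' y| := by
        refine Finset.sum_congr rfl fun x _ => ?_
        rw [Finset.mul_sum]
        refine Finset.sum_congr rfl fun y _ => ?_
        rw [← mul_sub, abs_mul, abs_of_nonneg (hf.1 x)]
    _ = ∑ y, |g y - g' y| := by rw [← Finset.sum_mul, hf.2, one_mul]

lemma tv_ten_left {g : H → ℝ} (hg : IsProb g) (f f' : K → ℝ) :
    tv (ten f g) (ten f' g) = tv f f' := by
  unfold tv ten
  congr 1
  rw [Fintype.sum_prod_type]
  calc ∑ x, ∑ y, |f x * g y - f' x * g y| = ∑ x, |f x - f' x| * ∑ y, g y := by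
        refine Finset.sum_congr rfl fun x _ => ?_
        rw [Finset.mul_sum]
        refine Finset.sum_congr rfl fun y _ => ?_
        rw [← sub_mul, abs_mul, abs_of_nonneg (hg.1 y)]
    _ = ∑ x, |f x - f' x| := by rw [hg.2]; simp

lemma tv_comb {G : Type} [Fintype G] (f f' g g' : G → ℝ) {a d : ℝ}
    (ha : 0 ≤ a) (hd : 0 ≤ d) :
    tv (a • f + d • g) (a • f' + d • g') ≤ a * tv f f' + d * tv g g' := by
  unfold tv
  calc 1 / 2 * ∑ x, |(a • f + d • g) x - (a • f' + d • g') x|
      ≤ 1 / 2 * ∑ x, (a * |f x - f' x| + d * |g x - g' x|) := by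
        refine mul_le_mul_of_nonneg_left ?_ (by norm_num)
        refine Finset.sum_le_sum fun x _ => ?_
        simp only [Pi.add_apply, Pi.smul_apply, smul_eq_mul]
        rw [show a * f x + d * g x - (a * f' x + d * g' x) =
          a * (f x - f' x) + d * (g x - g' x) by ring]
        refine (abs_add_le _ _).trans ?_
        rw [abs_mul, abs_mul, abs_of_nonneg ha, abs_of_nonneg hd]
    _ = _ := by
        rw [Finset.sum_add_distrib, ← Finset.mul_sum, ← Finset.mul_sum]
        ring

lemma tv_step_ideal {X : Finset K} (hX : X.Nonempty) (hK : 2 ≤ Fintype.card K)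
    (hH : 2 ≤ Fintype.card H) :
    tv (unifOn (stepSet X H)) (ideal (unifOn X) H (wa X H) (wd X H)) ≤
      1 / (Fintype.card H : ℝ) + 1 / (Fintype.card K : ℝ) := by
  rw [unifOn_stepSet hX hK hH]
  unfold ideal
  refine (tv_comb _ _ _ _ (wa_nonneg X) (wd_nonneg X)).trans ?_
  rw [tv_ten_right (isProb_unifOn hX), tv_ten_left isProb_pt0]
  have h1 := tv_unifOn_erase (G := H) hH
  have h2 := tv_unifOn_erase (G := K) hK
  have h3 := wa_nonneg (H := H) X
  have h4 := wd_nonneg (H := H) X
  have h5 := wa_add_wd (H := H) X hK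
  have h6 : 0 ≤ 1 / (Fintype.card H : ℝ) := by positivity
  have h7 : 0 ≤ 1 / (Fintype.card K : ℝ) := by positivity
  nlinarith [mul_le_mul_of_nonneg_left h1 h3, mul_le_mul_of_nonneg_left h2 h4,
    mul_nonneg h3 h7, mul_nonneg h4 h6]

/-- characters of the product group -/
lemma stepSet_char {X : Finset K} {χ : K × H → ℂ} (hχ : IsChar χ) {a : K × H} (ha : χ a ≠ 1)
    (hnorm : ∀ x, ‖χ x‖ ≤ 1) (hK : 2 ≤ Fintype.card K) (hH : 2 ≤ Fintype.card H)
    (c : ℝ) (hX : ∀ b : K, χ (b, 0) ≠ 1 → ‖∑ x ∈ X, χ (x, 0)‖ ≤ c * X.card) :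
    ‖∑ p ∈ stepSet X H, χ p‖ ≤ max ((X.card : ℝ) + (Fintype.card K - 1 : ℕ))
      (c * X.card * (Fintype.card H - 1 : ℕ) + 1) := by
  unfold stepSet
  rw [Finset.sum_union (stepSet_disj X), Finset.sum_product, Finset.sum_product]
  simp only [Finset.sum_singleton]
  have hcH : IsChar fun y : H => χ (0, y) := by
    refine ⟨hχ.1, fun x y => ?_⟩
    rw [← hχ.2]; simp
  have hcK : IsChar fun x : K => χ (x, 0) := by
    refine ⟨hχ.1, fun x y => ?_⟩
    rw [← hχ.2]; simp
  have hprod : ∀ p : K × H, χ p = χ (p.1, 0) * χ (0, p.2) := by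
    intro p
    rw [← hχ.2]; simp
  have e1 : ∑ x ∈ X, ∑ y ∈ (Finset.univ : Finset H).erase 0, χ (x, y) =
      (∑ x ∈ X, χ (x, 0)) * ∑ y ∈ (Finset.univ : Finset H).erase 0, χ (0, y) := by
    rw [Finset.sum_mul_sum]
    exact Finset.sum_congr rfl fun x _ => Finset.sum_congr rfl fun y _ => hprod (x, y)
  rw [e1]
  by_cases h1 : ∃ y : H, χ (0, y) ≠ 1
  · obtain ⟨y, hy⟩ := h1
    rw [hcH.sum_erase hy]
    refine le_trans ?_ (le_max_left _ _)
    refine (norm_add_le _ _).trans (add_le_add ?_ ?_)
    · rw [norm_mul, norm_neg, norm_one, mul_one]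
      refine (norm_sum_le _ _).trans ?_
      refine (Finset.sum_le_sum fun x _ => hnorm _).trans ?_
      simp
    · refine (norm_sum_le _ _).trans ?_
      refine (Finset.sum_le_sum fun x _ => hnorm _).trans ?_
      rw [Finset.sum_const, nsmul_eq_mul, mul_one, Finset.card_erase_of_mem (Finset.mem_univ _),
        Finset.card_univ]
  · push Not at h1
    have h2 : χ (a.1, 0) ≠ 1 := by
      intro h
      apply ha
      rw [hprod, h, h1, one_mul]
    refine le_trans ?_ (le_max_right _ _)
    rw [hcK.sum_erase h2, sum_one_erase h1 (by omega)]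
    refine (norm_add_le _ _).trans (add_le_add ?_ (by simp))
    rw [norm_mul]
    have h3 : ‖(Fintype.card H : ℂ) - 1‖ = ((Fintype.card H - 1 : ℕ) : ℝ) := by
      have : (Fintype.card H : ℂ) - 1 = (((Fintype.card H - 1 : ℕ) : ℝ) : ℂ) := by
        rw [Nat.cast_sub (by omega)]; push_cast; ring
      rw [this, Complex.norm_real, Real.norm_eq_abs, abs_of_nonneg (by positivity)]
    rw [h3]
    exact mul_le_mul_of_nonneg_right (hX _ h2) (by positivity)

end Comb

end Pool.Agent.U129.PC
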