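import Mathlib
import Pool.Agent.U129.PC.Block

/-!
The estimates for the walk on `K × H` with step set `(X × (H \ {0})) ∪ ((K \ {0}) × {0})`.
-/

set_option autoImplicit false
set_option linter.unusedSectionVars false

namespace Pool.Agent.U129.PC

open Finset

lemma one_sub_pow_le {x : ℝ} (hx0 : 0 ≤ x) (hx1 : x ≤ 1) (m : ℕ) :
    (1 - x) ^ m ≤ 1 / (1 + m * x) := by
  have h1 : 1 + (m : ℝ) * x ≤ (1 + x) ^ m := one_add_mul_le_pow (by linarith) m
  have h2 : ((1 - x) * (1 + x)) ^ m ≤ 1 := pow_le_one₀ (by nlinarith) (by nlinarith)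
  rw [mul_pow] at h2
  have h3 : 0 ≤ (1 - x) ^ m := pow_nonneg (by linarith) m
  have h4 : 0 < 1 + (m : ℝ) * x := by positivity
  rw [le_div_iff₀ h4]
  exact (mul_le_mul_of_nonneg_left h1 h3).trans h2

lemma one_sub_pow_ge {x : ℝ} (hx1 : x ≤ 1) (m : ℕ) : 1 - m * x ≤ (1 - x) ^ m := by
  have := one_add_mul_le_pow (a := -x) (by linarith) m
  rw [← sub_eq_add_neg] at this
  linarith

section Abstract

variable {G : Type} [AddCommGroup G] [Fintype G] [DecidableEq G]

/-- From two-sided bounds on the distance to mixing times. -/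
lemma mixing_of_bounds (μ : G → ℝ) (r : ℕ) (hr : 100 ≤ r) (δ η : ℝ)
    (hδ0 : 1 / (2 * (r : ℝ) + 1) ≤ δ) (hδ1 : δ ≤ 1 / r) (hη0 : 0 ≤ η)
    (hη : η * (20 * (r : ℝ)) ≤ 1 / 100)
    (hzero : 1 / 2 < tv (law μ 0) (unif G))
    (hup : ∀ t : ℕ, 1 ≤ t → tv (law μ t) (unif G) ≤ t * η + (1 - δ) ^ t + δ ^ t)
    (hlow : ∀ t : ℕ, 1 ≤ t → t ≤ 2 * r + 2 →
      (1 - δ) ^ t * (49 / 50) - t * η ≤ tv (law μ t) (unif G)) :
    (r : ℝ) / 4 ≤ Tmix μ (1 / 2) ∧ (6 / 5 : ℝ) * Tmix μ (3 / 4) ≤ Tmix μ (1 / 4) ∧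
      1 ≤ Tmix μ (3 / 4) + Tmix μ (1 / 4) ∧
      (∃ t, tv (law μ t) (unif G) < 1 / 2) ∧ 0 < Tmix μ (1 / 4) := by
  have hr' : (100 : ℝ) ≤ r := by exact_mod_cast hr
  have hδpos : 0 < δ := lt_of_lt_of_le (by positivity) hδ0
  have hδ2 : δ ≤ 1 / 100 := hδ1.trans (one_div_le_one_div_of_le (by norm_num) hr')
  have hinv1 : (r : ℝ) ≤ 1 / δ := by
    rw [le_div_iff₀ hδpos]
    have := mul_le_mul_of_nonneg_left hδ1 (by linarith : (0 : ℝ) ≤ r)
    rwa [mul_one_div_cancel (by linarith : (r : ℝ) ≠ 0)] at this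
  have hinv2 : 1 / δ ≤ 2 * r + 1 := by
    rw [div_le_iff₀ hδpos]
    have := mul_le_mul_of_nonneg_left hδ0 (by linarith : (0 : ℝ) ≤ 2 * r + 1)
    rwa [mul_one_div_cancel (by linarith : (2 * (r : ℝ) + 1) ≠ 0)] at this
  set D := 1 / δ with hD
  have hDδ : D * δ = 1 := by rw [hD]; field_simp
  have hδpow : ∀ t : ℕ, 1 ≤ t → δ ^ t ≤ 1 / 100 := by
    intro t ht
    calc δ ^ t ≤ δ ^ 1 := pow_le_pow_of_le_one hδpos.le (by linarith) ht
      _ ≤ 1 / 100 := by rwa [pow_one]
  -- lower bounds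
  have low : ∀ (s : ℝ) (t : ℕ), s ≤ 1 / 2 → (t : ℝ) ≤ s * D → 1 ≤ t →
      (1 - s) * (49 / 50) - 1 / 100 ≤ tv (law μ t) (unif G) := by
    intro s t hs ht ht1
    have ht2 : (t : ℝ) ≤ r + 1 / 2 := by
      have : s * D ≤ 1 / 2 * D := mul_le_mul_of_nonneg_right hs (by linarith)
      linarith
    have ht3 : t ≤ 2 * r + 2 := by
      have : (t : ℝ) ≤ ((2 * r + 2 : ℕ) : ℝ) := by push_cast; linarith
      exact_mod_cast this
    refine le_trans ?_ (hlow t ht1 ht3)
    have h1 := one_sub_pow_ge (x := δ) (by linarith) t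
    have h2 : (t : ℝ) * δ ≤ s := by
      have := mul_le_mul_of_nonneg_right ht hδpos.le
      rwa [mul_assoc, hDδ, mul_one] at this
    have h3 : (t : ℝ) * η ≤ 1 / 100 := by
      refine le_trans ?_ hη
      rw [mul_comm]
      exact mul_le_mul_of_nonneg_left (by linarith) hη0
    nlinarith
  -- upper bounds
  have up : ∀ (s : ℝ) (t : ℕ), 0 ≤ s → s * D ≤ t → (t : ℝ) ≤ 20 * r → 1 ≤ t →
      tv (law μ t) (unif G) ≤ 1 / (1 + s) + 2 / 100 := by
    intro s t hs ht ht2 ht1
    refine (hup t ht1).trans ?_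
    have h1 := one_sub_pow_le (x := δ) hδpos.le (by linarith) t
    have h2 : s ≤ (t : ℝ) * δ := by
      have := mul_le_mul_of_nonneg_right ht hδpos.le
      rwa [mul_assoc, hDδ, mul_one] at this
    have h3 : (t : ℝ) * η ≤ 1 / 100 := by
      refine le_trans ?_ hη
      rw [mul_comm]
      exact mul_le_mul_of_nonneg_left (by linarith) hη0
    have h4 : 1 / (1 + t * δ) ≤ 1 / (1 + s) :=
      one_div_le_one_div_of_le (by linarith) (by linarith)
    have h5 := hδpow t ht1
    linarith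
  -- a time at which the walk is mixed
  obtain ⟨t1, ht1⟩ : ∃ t1 : ℕ, t1 = ⌈4 * D⌉₊ := ⟨_, rfl⟩
  have ht1a : 4 * D ≤ t1 := by rw [ht1]; exact Nat.le_ceil _
  have ht1b : (t1 : ℝ) < 4 * D + 1 := by
    rw [ht1]; exact Nat.ceil_lt_add_one (by linarith)
  have ht1c : 1 ≤ t1 := by
    have : (1 : ℝ) ≤ t1 := by linarith
    exact_mod_cast this
  have hmix := up 4 t1 (by norm_num) ht1a (by linarith) ht1c
  have hne4 : {t : ℕ | tv (law μ t) (unif G) ≤ 1 / 4}.Nonempty := by
    refine ⟨t1, ?_⟩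
    show tv (law μ t1) (unif G) ≤ 1 / 4
    norm_num at hmix ⊢
    linarith
  have hne2 : {t : ℕ | tv (law μ t) (unif G) ≤ 1 / 2}.Nonempty := by
    refine ⟨t1, ?_⟩
    show tv (law μ t1) (unif G) ≤ 1 / 2
    norm_num at hmix ⊢
    linarith
  have hge4 : 1 / 2 * D ≤ Tmix μ (1 / 4) := by
    by_contra hcon
    push Not at hcon
    have hmem : tv (law μ (Tmix μ (1 / 4))) (unif G) ≤ 1 / 4 := Nat.sInf_mem hne4
    rcases Nat.eq_zero_or_pos (Tmix μ (1 / 4)) with h0 | h0
    · rw [h0] at hmem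
      linarith
    · have := low (1 / 2) (Tmix μ (1 / 4)) le_rfl hcon.le h0
      norm_num at this hmem
      linarith
  have hge2 : 1 / 4 * D ≤ Tmix μ (1 / 2) := by
    by_contra hcon
    push Not at hcon
    have hmem : tv (law μ (Tmix μ (1 / 2))) (unif G) ≤ 1 / 2 := Nat.sInf_mem hne2
    rcases Nat.eq_zero_or_pos (Tmix μ (1 / 2)) with h0 | h0
    · rw [h0] at hmem
      linarith
    · have := low (1 / 4) (Tmix μ (1 / 2)) (by norm_num) hcon.le h0
      norm_num at this hmem
      linarith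
  -- upper bound for Tmix (3/4)
  obtain ⟨t0, ht0⟩ : ∃ t0 : ℕ, t0 = ⌈2 / 5 * D⌉₊ := ⟨_, rfl⟩
  have ht0a : 2 / 5 * D ≤ t0 := by rw [ht0]; exact Nat.le_ceil _
  have ht0b : (t0 : ℝ) < 2 / 5 * D + 1 := by
    rw [ht0]; exact Nat.ceil_lt_add_one (by linarith)
  have ht0c : 1 ≤ t0 := by
    have : (1 : ℝ) ≤ t0 := by linarith
    exact_mod_cast this
  have hle3 : Tmix μ (3 / 4) ≤ t0 := by
    refine Nat.sInf_le ?_
    show tv (law μ t0) (unif G) ≤ 3 / 4
    have := up (2 / 5) t0 (by norm_num) ht0a (by linarith) ht0c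
    norm_num at this ⊢
    linarith
  have hle3' : (Tmix μ (3 / 4) : ℝ) ≤ 2 / 5 * D + 1 := by
    have : (Tmix μ (3 / 4) : ℝ) ≤ t0 := by exact_mod_cast hle3
    linarith
  have hpos4 : 0 < Tmix μ (1 / 4) := by
    have : (0 : ℝ) < Tmix μ (1 / 4) := by linarith
    exact_mod_cast this
  refine ⟨by linarith, by linarith, by omega, ⟨t1, ?_⟩, hpos4⟩
  norm_num at hmix ⊢
  linarith

/-- A walk that gets close to uniform is not confined to a coset of a proper subgroup. -/
lemma ergodic_of_mix (μ : G → ℝ) (hμ : IsProb μ) (h : ∃ t, tv (law μ t) (unif G) < 1 / 2)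
    (L : AddSubgroup G) (a : G) (hL : ∀ x, μ x ≠ 0 → x - a ∈ L) : L = ⊤ := by
  classical
  obtain ⟨t, ht⟩ := h
  by_contra hne
  have hsupp : ∀ (s : ℕ) (x : G), law μ s x ≠ 0 → x - s • a ∈ L := by
    intro s
    induction s with
    | zero =>
      intro x hx
      rw [law_zero] at hx
      have : x = 0 := by
        by_contra h0
        simp [h0] at hx
      subst this
      simp
    | succ s ih =>
      intro x hx
      rw [law_succ] at hx
      obtain ⟨y, _, hy⟩ := Finset.exists_ne_zero_of_sum_ne_zero hx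
      have h1 := ih y (left_ne_zero_of_mul hy)
      have h2 := hL _ (right_ne_zero_of_mul hy)
      have := L.add_mem h1 h2
      rw [succ_nsmul]
      convert this using 1
      abel
  set E : Finset G := Finset.univ.filter fun x => x - t • a ∈ L with hE
  have h1 : ∑ x ∈ E, law μ t x = 1 := by
    rw [← (isProb_law hμ t).2]
    refine Finset.sum_subset (Finset.subset_univ _) fun x _ hx => ?_
    by_contra h0
    exact hx (by simp only [hE, Finset.mem_filter, Finset.mem_univ, true_and]; exact hsupp t x h0)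
  have h2 : (E.card : ℝ) * 2 ≤ Fintype.card G := by
    have hc : E.card = Nat.card L := by
      rw [Nat.card_eq_fintype_card, Fintype.card_subtype]
      refine Finset.card_bij (fun x _ => x - t • a) ?_ ?_ ?_
      · intro x hx
        simp only [hE, Finset.mem_filter, Finset.mem_univ, true_and] at hx ⊢
        exact hx
      · intro x _ y _ hxy
        exact sub_left_injective hxy
      · intro y hy
        simp only [Finset.mem_filter, Finset.mem_univ, true_and] at hy
        refine ⟨y + t • a, ?_, by simp⟩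
        simp only [hE, Finset.mem_filter, Finset.mem_univ, true_and, add_sub_cancel_right]
        exact hy
    have hi : 2 ≤ L.index := by
      have h0 : L.index ≠ 1 := fun h => hne (AddSubgroup.index_eq_one.1 h)
      have h3 : L.index ≠ 0 := AddSubgroup.index_ne_zero_of_finite
      omega
    have hm := L.card_mul_index
    rw [Nat.card_eq_fintype_card (α := G)] at hm
    rw [hc, ← hm]
    push_cast
    have : (2 : ℝ) ≤ L.index := by exact_mod_cast hi
    exact mul_le_mul_of_nonneg_left this (by positivity)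
  have h3 : ∑ x ∈ E, unif G x ≤ 1 / 2 := by
    unfold unif
    rw [Finset.sum_const, nsmul_eq_mul]
    have hpos : (0 : ℝ) < Fintype.card G := by exact_mod_cast Fintype.card_pos
    rw [mul_one_div, div_le_iff₀ hpos]
    linarith
  have h4 := tv_ge_event ((isProb_law hμ t).2.trans isProb_unif.2.symm) E
  rw [h1] at h4
  linarith

end Abstract

section Est

variable {m : ℕ} {B A : Fin m → Type} [∀ i, AddCommGroup (B i)] [∀ i, Fintype (B i)]
  [∀ i, DecidableEq (B i)] [∀ i, AddCommGroup (A i)] [∀ i, Fintype (A i)]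
  [∀ i, DecidableEq (A i)] {H : Type} [AddCommGroup H] [Fintype H] [DecidableEq H]

/-- the product of the crosses -/
def XX (B A : Fin m → Type) [∀ i, AddCommGroup (B i)] [∀ i, Fintype (B i)]
  [∀ i, DecidableEq (B i)] [∀ i, AddCommGroup (A i)] [∀ i, Fintype (A i)]
  [∀ i, DecidableEq (A i)] : Finset (∀ i, B i × A i) :=
  Fintype.piFinset fun i => cross (B i) (A i)

lemma XX_neg {x : ∀ i, B i × A i} (hx : x ∈ XX B A) : -x ∈ XX B A := by
  unfold XX at hx ⊢
  rw [Fintype.mem_piFinset] at hx ⊢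
  intro i
  have := hx i
  simp only [cross, Finset.mem_filter, Finset.mem_univ, true_and] at this
  simp only [cross, Finset.mem_filter, Finset.mem_univ, true_and, Pi.neg_apply, Prod.fst_neg,
    Prod.snd_neg, neg_eq_zero]
  exact this

lemma XX_nonempty : (XX B A).Nonempty :=
  ⟨0, by unfold XX; rw [Fintype.mem_piFinset]; exact fun i => zero_mem_cross⟩

/-- the data of the construction -/
structure Params (m r : ℕ) (B A : Fin m → Type) [∀ i, AddCommGroup (B i)] [∀ i, Fintype (B i)]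
    [∀ i, DecidableEq (B i)] [∀ i, AddCommGroup (A i)] [∀ i, Fintype (A i)]
    [∀ i, DecidableEq (A i)] (H : Type) [AddCommGroup H] [Fintype H] [DecidableEq H] :
    Prop where
  hr : 100 ≤ r
  hm : 100 * 2 ^ (2 * r + 2) ≤ m
  hB : ∀ i, 20000 * m * (r + 1) < Fintype.card (B i)
  hBA : ∀ i, Fintype.card (B i) ≤ Fintype.card (A i)
  hAB : ∀ i, Fintype.card (A i) ≤ 2 * Fintype.card (B i)
  hH1 : r * (Fintype.card (∀ i, B i × A i) - 1) < (XX B A).card * Fintype.card H
  hH2 : (XX B A).card * Fintype.card H ≤ 2 * r * (Fintype.card (∀ i, B i × A i) - 1)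

variable {r : ℕ}

lemma Params.cardK (P : Params m r B A H) :
    10000 * m * (r + 1) * (XX B A).card ≤ Fintype.card (∀ i, B i × A i) := by
  have hm1 : 1 ≤ m := le_trans (Nat.succ_le_of_lt (by positivity)) P.hm
  have : Nonempty (Fin m) := ⟨⟨0, hm1⟩⟩
  unfold XX
  rw [Fintype.card_pi, Fintype.card_piFinset]
  set c := 10000 * m * (r + 1) with hc
  have hc1 : 1 ≤ c := Nat.succ_le_of_lt (by positivity)
  have h1 : ∀ i, c * (cross (B i) (A i)).card ≤ Fintype.card (B i × A i) := by
    intro i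
    rw [card_cross, Fintype.card_prod]
    have h2 := P.hB i
    have h3 := P.hBA i
    have h4 : 2 * c < Fintype.card (B i) := by rw [hc]; linarith
    calc c * (Fintype.card (A i) + (Fintype.card (B i) - 1))
        ≤ c * (Fintype.card (A i) + Fintype.card (A i)) := by
          apply Nat.mul_le_mul_left; omega
      _ = (2 * c) * Fintype.card (A i) := by ring
      _ ≤ Fintype.card (B i) * Fintype.card (A i) := Nat.mul_le_mul_right _ h4.le
  calc c * ∏ i, (cross (B i) (A i)).card ≤ c ^ m * ∏ i, (cross (B i) (A i)).card := by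
        apply Nat.mul_le_mul_right
        calc c = c ^ 1 := (pow_one c).symm
          _ ≤ c ^ m := Nat.pow_le_pow_right hc1 hm1
    _ = ∏ i, (c * (cross (B i) (A i)).card) := by
        rw [Finset.prod_mul_distrib]; simp
    _ ≤ ∏ i, Fintype.card (B i × A i) := Finset.prod_le_prod' fun i _ => h1 i

set_option maxHeartbeats 4000000 in
lemma Params.main (P : Params m r B A H) :
    let μ := unifOn (stepSet (XX B A) H)
    ((r : ℝ) / 4 ≤ Tmix μ (1 / 2) ∧ (6 / 5 : ℝ) * Tmix μ (3 / 4) ≤ Tmix μ (1 / 4) ∧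
      (∃ t, tv (law μ t) (unif ((∀ i, B i × A i) × H)) < 1 / 2) ∧ 0 < Tmix μ (1 / 4)) ∧
    r ≤ Fintype.card ((∀ i, B i × A i) × H) ∧
    ∀ χ : (∀ i, B i × A i) × H → ℂ, IsChar χ → (∀ x, ‖χ x‖ ≤ 1) → (∃ a, χ a ≠ 1) →
      ‖∑ p ∈ stepSet (XX B A) H, χ p‖ ≤ 4 / 5 * (stepSet (XX B A) H).card := by
  intro μ
  have hcardK := P.cardK
  have hm := P.hm
  have hr := P.hr
  have hH1 := P.hH1
  have hH2 := P.hH2
  have hX0 : 1 ≤ (XX B A).card := XX_nonempty.card_pos
  set X := XX B A with hXdef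
  set k := Fintype.card (∀ i, B i × A i) with hk
  set h := Fintype.card H with hh
  have hm1 : 1 ≤ m := le_trans (Nat.succ_le_of_lt (by positivity)) hm
  have hm100 : 100 ≤ m := le_trans (by
    have : 1 ≤ 2 ^ (2 * r + 2) := Nat.one_le_two_pow
    omega) hm
  -- real versions
  have hrR : (100 : ℝ) ≤ r := by exact_mod_cast hr
  have hXR : (1 : ℝ) ≤ X.card := by exact_mod_cast hX0
  have hcR : (10000 : ℝ) * 100 * (r + 1) * X.card ≤ k := by
    have h1 : 10000 * 100 * (r + 1) * X.card ≤ k := by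
      refine le_trans ?_ hcardK
      apply Nat.mul_le_mul_right
      apply Nat.mul_le_mul_right
      exact Nat.mul_le_mul_left _ hm100
    exact_mod_cast h1
  have hk2 : 2 ≤ k := by
    have : 10000 * m * (r + 1) * X.card ≥ 2 := by
      calc 2 ≤ 10000 * 1 * 1 * 1 := by norm_num
        _ ≤ 10000 * m * (r + 1) * X.card := by
          gcongr
          omega
    omega
  have hk1R : ((k - 1 : ℕ) : ℝ) = (k : ℝ) - 1 := by
    rw [Nat.cast_sub (by omega)]; simp
  have hH1R : (r : ℝ) * ((k : ℝ) - 1) < X.card * h := by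
    rw [← hk1R]; exact_mod_cast hH1
  have hH2R : (X.card : ℝ) * h ≤ 2 * r * ((k : ℝ) - 1) := by
    rw [← hk1R]; exact_mod_cast hH2
  have hkbig : (10000 : ℝ) * 99 * (r + 1) * X.card ≤ (k : ℝ) - 1 := by
    have : (1 : ℝ) ≤ 10000 * (r + 1) * X.card := by nlinarith
    nlinarith
  have hhR : (10000 : ℝ) * 99 * (r + 1) < h := by
    have h1 : (X.card : ℝ) * (10000 * 99 * (r + 1)) < X.card * h := by
      refine lt_of_le_of_lt ?_ hH1R
      nlinarith
    exact lt_of_mul_lt_mul_left h1 (by linarith)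
  have hh2 : 2 ≤ h := by
    have : (2 : ℝ) ≤ h := by nlinarith
    exact_mod_cast this
  have hh1R : ((h - 1 : ℕ) : ℝ) = (h : ℝ) - 1 := by
    rw [Nat.cast_sub (by omega)]; simp
  -- the size of the step set
  have hM : ((stepSet X H).card : ℝ) = X.card * ((h : ℝ) - 1) + ((k : ℝ) - 1) := by
    rw [card_stepSet, ← hh, ← hk]
    push_cast
    rw [hh1R, hk1R]
  set M : ℝ := X.card * ((h : ℝ) - 1) + ((k : ℝ) - 1) with hMdef
  have hMpos : 0 < M := by
    have h1 : 0 ≤ (X.card : ℝ) * ((h : ℝ) - 1) := by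
      apply mul_nonneg (by linarith); nlinarith
    have h2 : (0 : ℝ) < (k : ℝ) - 1 := by nlinarith
    linarith
  have hsum := wa_add_wd (H := H) X (hk ▸ hk2)
  set δ := wd X H with hδ
  have hδval : δ = ((k : ℝ) - 1) / M := by
    rw [hδ]; unfold wd
    rw [hM, ← hk, hk1R]
  have ha : wa X H = 1 - δ := by linarith
  have hδ0 : 1 / (2 * (r : ℝ) + 1) ≤ δ := by
    rw [hδval, div_le_div_iff₀ (by linarith) hMpos, hMdef]
    nlinarith
  have hδ1 : δ ≤ 1 / r := by
    rw [hδval, div_le_div_iff₀ hMpos (by linarith), hMdef]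
    nlinarith
  have hδnn : 0 ≤ δ := wd_nonneg X
  have hann : 0 ≤ 1 - δ := by rw [← ha]; exact wa_nonneg X
  -- the perturbation
  set η : ℝ := 1 / (h : ℝ) + 1 / (k : ℝ) with hη
  have hη0 : 0 ≤ η := by positivity
  have hη20 : η * (20 * (r : ℝ)) ≤ 1 / 100 := by
    have h1 : 1 / (h : ℝ) ≤ 1 / (10000 * 99 * (r + 1)) :=
      one_div_le_one_div_of_le (by positivity) hhR.le
    have h2 : 1 / (k : ℝ) ≤ 1 / (10000 * 99 * (r + 1)) := by
      apply one_div_le_one_div_of_le (by positivity)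
      nlinarith
    have h3 : η ≤ 2 / (10000 * 99 * (r + 1)) := by
      rw [hη]
      have : 2 / (10000 * 99 * ((r : ℝ) + 1)) = 1 / (10000 * 99 * (r + 1)) +
        1 / (10000 * 99 * (r + 1)) := by ring
      rw [this]; linarith
    calc η * (20 * (r : ℝ)) ≤ 2 / (10000 * 99 * (r + 1)) * (20 * (r : ℝ)) :=
          mul_le_mul_of_nonneg_right h3 (by positivity)
      _ ≤ 1 / 100 := by
          rw [div_mul_eq_mul_div, div_le_div_iff₀ (by positivity) (by norm_num)]
          nlinarith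
  have hXne : X.Nonempty := XX_nonempty
  have hpμ : IsProb μ := isProb_unifOn (by
    rw [← Finset.card_pos]
    have : (0 : ℝ) < (stepSet X H).card := by rw [hM]; exact hMpos
    exact_mod_cast this)
  have hpν : IsProb (unifOn X) := isProb_unifOn hXne
  have hpi : IsProb (ideal (unifOn X) H (wa X H) δ) :=
    isProb_ideal hpν (wa_nonneg X) hδnn hsum
  have hpert : ∀ t : ℕ, tv (law μ t) (law (ideal (unifOn X) H (wa X H) δ) t) ≤ t * η := by
    intro t
    refine (tv_law_law hpμ hpi t).trans ?_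
    refine mul_le_mul_of_nonneg_left ?_ (by positivity)
    exact tv_step_ideal hXne (hk ▸ hk2) (hh ▸ hh2)
  -- the event
  have hevent : ∀ t : ℕ, t ≤ 2 * r + 2 →
      49 / 50 ≤ ∑ x ∈ (Fintype.piFinset (fun i => (axis (B i) (A i))ᶜ))ᶜ,
          law (unifOn X) t x -
        ∑ x ∈ (Fintype.piFinset (fun i => (axis (B i) (A i))ᶜ))ᶜ,
          unif (∀ i, B i × A i) x := by
    intro t ht
    have hpi' : ∀ i, IsProb (unifOn (cross (B i) (A i))) := fun i =>
      isProb_unifOn ⟨0, zero_mem_cross⟩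
    have hcB : ∀ i, 1 ≤ Fintype.card (B i) := fun i => Fintype.card_pos
    have hcA : ∀ i, 1 ≤ Fintype.card (A i) := fun i => Fintype.card_pos
    have h1 := pten_event_ge (f := fun i => unifOn (cross (B i) (A i))) hpi'
      (fun i => axis (B i) (A i)) (fun i => by simp [axis])
      (fun i x hx y hy => by
        simp only [axis, Finset.mem_filter, Finset.mem_univ, true_and] at hx hy ⊢
        simp [hx, hy])
      (fun i x hx => by
        simp only [axis, Finset.mem_filter, Finset.mem_univ, true_and] at hx ⊢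
        simp [hx]) (1 / 2) (by norm_num)
      (fun i => axis_ge (by have := P.hBA i; omega) (hcA i) (hcB i)) t
    rw [← unifOn_pi, Fintype.card_fin] at h1
    have h2 := unif_event_le (K := fun i => B i × A i) fun i => axis (B i) (A i)
    have h3 : ∑ i, ((axis (B i) (A i)).card : ℝ) / Fintype.card (B i × A i) ≤ 1 / 100 := by
      calc ∑ i, ((axis (B i) (A i)).card : ℝ) / Fintype.card (B i × A i)
          ≤ ∑ _i : Fin m, 1 / (20000 * (m : ℝ)) := by
            refine Finset.sum_le_sum fun i _ => ?_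
            rw [card_axis, Fintype.card_prod]
            push_cast
            have h4 : (0 : ℝ) < Fintype.card (A i) := by exact_mod_cast hcA i
            have h5 : (0 : ℝ) < Fintype.card (B i) := by exact_mod_cast hcB i
            rw [div_mul_cancel_right₀ h4.ne', ← one_div]
            apply one_div_le_one_div_of_le
            · have : (0 : ℝ) < m := by exact_mod_cast hm1
              positivity
            · have h6 := P.hB i
              have h7 : 20000 * m ≤ Fintype.card (B i) := by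
                refine le_trans ?_ h6.le
                exact Nat.le_mul_of_pos_right _ (Nat.succ_pos r)
              exact_mod_cast h7
        _ = 1 / 20000 := by
            rw [Finset.sum_const, Finset.card_univ, Fintype.card_fin, nsmul_eq_mul]
            have : (m : ℝ) ≠ 0 := by
              have : (0 : ℝ) < m := by exact_mod_cast hm1
              exact this.ne'
            field_simp
        _ ≤ 1 / 100 := by norm_num
    have h4 : (1 - (1 / 2 : ℝ) ^ t) ^ m ≤ 1 / 101 := by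
      refine (one_sub_pow_le (by positivity) (pow_le_one₀ (by norm_num) (by norm_num)) m).trans ?_
      apply one_div_le_one_div_of_le (by norm_num)
      have h5 : (1 / 2 : ℝ) ^ (2 * r + 2) ≤ (1 / 2 : ℝ) ^ t :=
        pow_le_pow_of_le_one (by norm_num) (by norm_num) ht
      have h6 : ((100 * 2 ^ (2 * r + 2) : ℕ) : ℝ) ≤ m := by exact_mod_cast hm
      push_cast at h6
      have h7 : (100 : ℝ) = (100 * 2 ^ (2 * r + 2)) * (1 / 2) ^ (2 * r + 2) := by
        rw [mul_assoc, ← mul_pow]; norm_num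
      have h8 : (100 : ℝ) ≤ m * (1 / 2) ^ t := by
        rw [h7]
        exact mul_le_mul h6 h5 (by positivity) (by positivity)
      linarith
    have h9 : 1 - 1 / 101 ≤ ∑ x ∈ (Fintype.piFinset (fun i => (axis (B i) (A i))ᶜ))ᶜ,
        law (unifOn X) t x := by
      refine le_trans ?_ h1
      linarith
    norm_num at h9 h3 h2 ⊢
    linarith
  have hup : ∀ t : ℕ, 1 ≤ t →
      tv (law μ t) (unif ((∀ i, B i × A i) × H)) ≤ t * η + (1 - δ) ^ t + δ ^ t := by
    intro t ht
    obtain ⟨s, rfl⟩ : ∃ s, t = s + 1 := ⟨t - 1, by omega⟩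
    refine (tv_triangle _ (law (ideal (unifOn X) H (wa X H) δ) (s + 1)) _).trans ?_
    have h1 := hpert (s + 1)
    have h2 := tv_ideal_le (H := H) hpν (wa_nonneg (H := H) X) hδnn hsum s
    rw [ha] at h1 h2 ⊢
    linarith
  have hlow : ∀ t : ℕ, 1 ≤ t → t ≤ 2 * r + 2 →
      (1 - δ) ^ t * (49 / 50) - t * η ≤ tv (law μ t) (unif ((∀ i, B i × A i) × H)) := by
    intro t ht ht2
    obtain ⟨s, rfl⟩ : ∃ s, t = s + 1 := ⟨t - 1, by omega⟩
    have h1 := hpert (s + 1)
    have h2 := tv_ideal_ge (H := H) hpν (wa_nonneg (H := H) X) hδnn hsum s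
      ((Fintype.piFinset (fun i => (axis (B i) (A i))ᶜ))ᶜ)
    have h3 := tv_triangle (law (ideal (unifOn X) H (wa X H) δ) (s + 1)) (law μ (s + 1))
      (unif ((∀ i, B i × A i) × H))
    rw [tv_comm] at h1
    have h4 := hevent (s + 1) ht2
    rw [ha] at h1 h2 h3
    have h5 : (1 - δ) ^ (s + 1) * (49 / 50) ≤ (1 - δ) ^ (s + 1) *
        (∑ x ∈ (Fintype.piFinset (fun i => (axis (B i) (A i))ᶜ))ᶜ,
          law (unifOn X) (s + 1) x -
        ∑ x ∈ (Fintype.piFinset (fun i => (axis (B i) (A i))ᶜ))ᶜ,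
          unif (∀ i, B i × A i) x) :=
      mul_le_mul_of_nonneg_left h4 (pow_nonneg hann _)
    linarith
  have hcardG : Fintype.card ((∀ i, B i × A i) × H) = k * h := by
    rw [Fintype.card_prod]
  have hzero : 1 / 2 < tv (law μ 0) (unif ((∀ i, B i × A i) × H)) := by
    have h1 := tv_ge_event ((isProb_law hpμ 0).2.trans
      (isProb_unif (G := (∀ i, B i × A i) × H)).2.symm) {0}
    rw [Finset.sum_singleton, Finset.sum_singleton] at h1
    have h2 : law μ 0 0 = 1 := by rw [law_zero]; exact if_pos rfl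
    have h3 : unif ((∀ i, B i × A i) × H) 0 ≤ 1 / 4 := by
      unfold unif
      apply one_div_le_one_div_of_le (by norm_num)
      rw [hcardG]
      have : 2 * 2 ≤ k * h := Nat.mul_le_mul hk2 hh2
      have h4 : ((2 * 2 : ℕ) : ℝ) ≤ ((k * h : ℕ) : ℝ) := by exact_mod_cast this
      linarith [show ((2 * 2 : ℕ) : ℝ) = 4 by norm_num]
    rw [h2] at h1
    linarith
  have hmix := mixing_of_bounds μ r hr δ η hδ0 hδ1 hη0 hη20 hzero hup hlow
  refine ⟨⟨hmix.1, hmix.2.1, hmix.2.2.2.1, hmix.2.2.2.2⟩, ?_, ?_⟩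
  · rw [hcardG]
    have h1 : (r : ℝ) ≤ k := by nlinarith
    have h2 : r ≤ k := by exact_mod_cast h1
    calc r ≤ k * 1 := by omega
      _ ≤ k * h := Nat.mul_le_mul_left _ (by omega)
  · intro χ hχ hnorm ⟨a, ha'⟩
    have hcB : ∀ i, 1 ≤ Fintype.card (B i) := fun i => Fintype.card_pos
    have hXc : ∀ b : ∀ i, B i × A i, χ (b, 0) ≠ 1 → ‖∑ x ∈ X, χ (x, 0)‖ ≤ 3 / 4 * X.card := by
      intro b hb
      have hcK : IsChar fun x : ∀ i, B i × A i => χ (x, 0) := by
        refine ⟨hχ.1, fun x y => ?_⟩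
        rw [← hχ.2]; simp
      refine char_pi_bound hcK hb (fun x => hnorm _) (fun i => cross (B i) (A i)) (3 / 4)
        (by norm_num) (by norm_num) ?_
      intro i c hc
      have hci := isChar_single hcK i
      refine (cross_char hci hc (hcB i) (P.hBA i)).trans ?_
      rw [card_cross]
      have h1 := P.hB i
      have h2 := P.hAB i
      have h3 : 3 ≤ Fintype.card (B i) := by
        have : 20000 * m * (r + 1) ≥ 3 := by
          calc 3 ≤ 20000 * 1 * 1 := by norm_num
            _ ≤ 20000 * m * (r + 1) := by gcongr; omega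
        omega
      have h4 : 4 * Fintype.card (A i) ≤
          3 * (Fintype.card (A i) + (Fintype.card (B i) - 1)) := by omega
      have h5 : (4 : ℝ) * Fintype.card (A i) ≤
          3 * ((Fintype.card (A i) + (Fintype.card (B i) - 1) : ℕ) : ℝ) := by
        exact_mod_cast h4
      linarith
    refine (stepSet_char hχ ha' hnorm (hk ▸ hk2) (hh ▸ hh2) (3 / 4) hXc).trans ?_
    rw [hM, hMdef, ← hk, ← hh, hh1R, hk1R]
    apply max_le
    · nlinarith
    · nlinarith

end Est

end Pool.Agent.U129.PC
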